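import Pool.Agent.H389R2.Dim.Lower

/-!
A random compact set and a fixed compact set: lower bounds for the probability that they meet and
for the dimension of the intersection, from a lower bound for the hitting probabilities of balls and
an upper bound for those of two balls.
-/

set_option autoImplicit false

namespace Pool.Agent.TH966.HD

open MeasureTheory Filter Topology Metric Set Pool.Agent.H389R2.Dim
open scoped ENNReal NNReal

/-- Finite energy of a weighted finite set near `A` implies good. -/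
theorem good_of_wenergy {Y : Type*} [MetricSpace Y] {t δ E : ℝ} (hδ : 0 < δ) (ht : 0 ≤ t)
    (hE : 0 < E) {A : Set Y} (T : Finset Y) (w : Y → ℝ) (hw : ∀ x ∈ T, 0 ≤ w x)
    (hpos : 0 < ∑ x ∈ T, w x) (hT : ∀ x ∈ T, ∃ a ∈ A, dist a x ≤ δ)
    (h : ∑ x ∈ T, ∑ y ∈ T, w x * w y * (max (dist x y) δ) ^ (-t) ≤ E * (∑ x ∈ T, w x) ^ 2) :
    Good t δ (4 ^ (-t) / E) A := by
  classical
  intro s hs hcov
  have hpos' : ∀ p ∈ s, 0 < p.2 := fun p hp => lt_of_lt_of_le hδ (hs p hp)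
  have h1 : ∀ x ∈ T, ∃ p ∈ s, dist x p.1 < 2 * p.2 := by
    intro x hx
    obtain ⟨a, ha, hax⟩ := hT x hx
    obtain ⟨p, hp, hap⟩ := Set.mem_iUnion₂.mp (hcov ha)
    refine ⟨p, hp, ?_⟩
    rw [mem_ball] at hap
    have h2 := dist_triangle_left x p.1 a
    have h3 := hs p hp
    linarith
  choose! f hf1 hf2 using h1
  set N : Y × ℝ → ℝ := fun p => ∑ x ∈ T.filter (fun x => f x = p), w x with hN
  have hN0 : ∀ p, 0 ≤ N p := fun p =>
    Finset.sum_nonneg fun x hx => hw x (Finset.mem_filter.mp hx).1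
  have h2 : ∑ x ∈ T, w x = ∑ p ∈ s, N p :=
    (Finset.sum_fiberwise_of_maps_to (fun x hx => hf1 x hx) _).symm
  have h3 : ∑ p ∈ s, N p ^ 2 * (4 * p.2) ^ (-t) ≤ E * (∑ x ∈ T, w x) ^ 2 := by
    refine le_trans ?_ h
    have h4 : ∀ p ∈ s, N p ^ 2 * (4 * p.2) ^ (-t) ≤
        ∑ x ∈ T.filter (fun x => f x = p), ∑ y ∈ T, w x * w y * (max (dist x y) δ) ^ (-t) := by
      intro p hp
      have h5 : ∀ x ∈ T.filter (fun x => f x = p), w x * (N p * (4 * p.2) ^ (-t)) ≤
          ∑ y ∈ T, w x * w y * (max (dist x y) δ) ^ (-t) := by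
        intro x hx
        rw [Finset.mem_filter] at hx
        have h6 : ∑ y ∈ T.filter (fun y => f y = p), w x * w y * (4 * p.2) ^ (-t) ≤
            ∑ y ∈ T.filter (fun y => f y = p), w x * w y * (max (dist x y) δ) ^ (-t) := by
          apply Finset.sum_le_sum
          intro y hy
          rw [Finset.mem_filter] at hy
          have hx2 := hf2 x hx.1
          have hy2 := hf2 y hy.1
          rw [hx.2] at hx2
          rw [hy.2] at hy2
          have h7 : dist x y ≤ 4 * p.2 := by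
            have := dist_triangle_right x y p.1
            linarith
          have h8 : max (dist x y) δ ≤ 4 * p.2 := max_le h7 (by linarith [hs p hp, hpos' p hp])
          have h9 : 0 ≤ w x * w y := mul_nonneg (hw x hx.1) (hw y hy.1)
          exact mul_le_mul_of_nonneg_left (Real.rpow_le_rpow_of_nonpos
            (lt_of_lt_of_le hδ (le_max_right _ _)) h8 (by linarith)) h9
        have e6 : ∑ y ∈ T.filter (fun y => f y = p), w x * w y * (4 * p.2) ^ (-t) =
            w x * (N p * (4 * p.2) ^ (-t)) := by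
          rw [hN]
          simp only
          rw [Finset.sum_mul, Finset.mul_sum]
          exact Finset.sum_congr rfl fun y _ => by ring
        rw [← e6]
        refine h6.trans (Finset.sum_le_sum_of_subset_of_nonneg (Finset.filter_subset _ _) ?_)
        intro y hy _
        have := mul_nonneg (hw x hx.1) (hw y hy)
        have hm : 0 < max (dist x y) δ := lt_of_lt_of_le hδ (le_max_right _ _)
        positivity
      have h6 := Finset.sum_le_sum h5
      calc N p ^ 2 * (4 * p.2) ^ (-t) = ∑ x ∈ T.filter (fun x => f x = p),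
            w x * (N p * (4 * p.2) ^ (-t)) := by
            rw [← Finset.sum_mul]
            ring
        _ ≤ _ := h6
    refine (Finset.sum_le_sum h4).trans (le_of_eq ?_)
    exact Finset.sum_fiberwise_of_maps_to (fun x hx => hf1 x hx) _
  -- Cauchy-Schwarz
  have h4 : (∑ p ∈ s, N p) ^ 2 ≤
      (∑ p ∈ s, N p ^ 2 * (4 * p.2) ^ (-t)) * ∑ p ∈ s, (4 * p.2) ^ t := by
    have h5 := Finset.sum_mul_sq_le_sq_mul_sq s (fun p => N p * (4 * p.2) ^ (-t / 2))
      (fun p => (4 * p.2) ^ (t / 2))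
    have h6 : ∑ p ∈ s, (N p * (4 * p.2) ^ (-t / 2)) * (4 * p.2) ^ (t / 2) = ∑ p ∈ s, N p := by
      apply Finset.sum_congr rfl
      intro p hp
      have : (0 : ℝ) < 4 * p.2 := by linarith [hpos' p hp]
      rw [mul_assoc, ← Real.rpow_add this]
      ring_nf
      simp
    have h7 : ∑ p ∈ s, (N p * (4 * p.2) ^ (-t / 2)) ^ 2 = ∑ p ∈ s, N p ^ 2 * (4 * p.2) ^ (-t) := by
      apply Finset.sum_congr rfl
      intro p hp
      have : (0 : ℝ) < 4 * p.2 := by linarith [hpos' p hp]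
      rw [mul_pow, ← Real.rpow_natCast ((4 * p.2) ^ (-t / 2)) 2, ← Real.rpow_mul this.le]
      congr 2
      push_cast; ring
    have h8 : ∑ p ∈ s, ((4 * p.2) ^ (t / 2)) ^ 2 = ∑ p ∈ s, (4 * p.2) ^ t := by
      apply Finset.sum_congr rfl
      intro p hp
      have : (0 : ℝ) < 4 * p.2 := by linarith [hpos' p hp]
      rw [← Real.rpow_natCast ((4 * p.2) ^ (t / 2)) 2, ← Real.rpow_mul this.le]
      congr 1
      push_cast; ring
    rw [h6, h7, h8] at h5
    exact h5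
  have h5 : ∑ p ∈ s, (4 * p.2) ^ t = 4 ^ t * ∑ p ∈ s, p.2 ^ t := by
    rw [Finset.mul_sum]
    apply Finset.sum_congr rfl
    intro p hp
    rw [Real.mul_rpow (by norm_num) (hpos' p hp).le]
  rw [← h2, h5] at h4
  have h6 : (∑ x ∈ T, w x) ^ 2 ≤ E * (∑ x ∈ T, w x) ^ 2 * (4 ^ t * ∑ p ∈ s, p.2 ^ t) := by
    refine h4.trans (mul_le_mul_of_nonneg_right h3 ?_)
    have : 0 ≤ ∑ p ∈ s, p.2 ^ t := Finset.sum_nonneg fun p hp => Real.rpow_nonneg (hpos' p hp).le _
    positivity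
  have h7 : 1 ≤ E * (4 ^ t * ∑ p ∈ s, p.2 ^ t) := by
    have h8 : (0 : ℝ) < (∑ x ∈ T, w x) ^ 2 := by positivity
    by_contra hcon
    rw [not_le] at hcon
    nlinarith
  have h8 : (0 : ℝ) < 4 ^ t := by positivity
  rw [Real.rpow_neg (by norm_num), div_le_iff₀ hE, inv_le_iff_one_le_mul₀ h8]
  linarith [h7]

/-! ### The second moment method -/

section PZ

variable {Ω : Type*} [MeasurableSpace Ω] {μ : Measure Ω} [IsProbabilityMeasure μ]

/-- Paley-Zygmund. -/
theorem pz {Z : Ω → ℝ} (hZm : Measurable Z) (hZ1 : Integrable Z μ)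
    (hZ2 : Integrable (fun ω => Z ω ^ 2) μ) {a B : ℝ} (ha : 0 < a) (hB : 0 < B)
    (h1 : a ≤ ∫ ω, Z ω ∂μ) (h2 : ∫ ω, Z ω ^ 2 ∂μ ≤ B) :
    a ^ 2 / (4 * B) ≤ μ.real {ω | a / 2 ≤ Z ω} := by
  have hm : MeasurableSet {ω | a / 2 ≤ Z ω} := measurableSet_le measurable_const hZm
  obtain ⟨θ, hθ⟩ : ∃ θ, θ = a / (2 * B) := ⟨_, rfl⟩
  have hθ0 : 0 < θ := by rw [hθ]; positivity
  have hpt : ∀ ω, Z ω ≤ a / 2 + θ / 2 * Z ω ^ 2 +
      1 / (2 * θ) * {ω | a / 2 ≤ Z ω}.indicator (fun _ => (1:ℝ)) ω := by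
    intro ω
    by_cases h : a / 2 ≤ Z ω
    · rw [Set.indicator_of_mem (show ω ∈ {ω | a / 2 ≤ Z ω} from h)]
      have h3 : 0 ≤ θ / 2 * (Z ω - 1 / θ) ^ 2 := by positivity
      have h4 : θ / 2 * (Z ω - 1 / θ) ^ 2 = θ / 2 * Z ω ^ 2 - Z ω + 1 / (2 * θ) := by
        field_simp
        ring
      rw [h4] at h3
      linarith
    · rw [Set.indicator_of_notMem (show ω ∉ {ω | a / 2 ≤ Z ω} from h)]
      have h3 : 0 ≤ θ / 2 * Z ω ^ 2 := by positivity
      push Not at h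
      linarith
  have hi : Integrable ({ω | a / 2 ≤ Z ω}.indicator (fun _ => (1:ℝ))) μ :=
    (integrable_const (1:ℝ)).indicator hm
  have h3 : ∫ ω, Z ω ∂μ ≤ ∫ ω, (a / 2 + θ / 2 * Z ω ^ 2 +
      1 / (2 * θ) * {ω | a / 2 ≤ Z ω}.indicator (fun _ => (1:ℝ)) ω) ∂μ :=
    integral_mono hZ1 (((integrable_const _).add (hZ2.const_mul _)).add (hi.const_mul _)) hpt
  have e3 : ∫ ω, (a / 2 + θ / 2 * Z ω ^ 2 +
      1 / (2 * θ) * {ω | a / 2 ≤ Z ω}.indicator (fun _ => (1:ℝ)) ω) ∂μ =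
      a / 2 + θ / 2 * ∫ ω, Z ω ^ 2 ∂μ + 1 / (2 * θ) * μ.real {ω | a / 2 ≤ Z ω} := by
    have i1 : Integrable (fun ω => a / 2 + θ / 2 * Z ω ^ 2) μ :=
      (integrable_const _).add (hZ2.const_mul _)
    have i2 : Integrable (fun ω => 1 / (2 * θ) *
        {ω | a / 2 ≤ Z ω}.indicator (fun _ => (1:ℝ)) ω) μ := hi.const_mul _
    rw [integral_add i1 i2, integral_add (integrable_const _) (hZ2.const_mul _),
      integral_const_mul, integral_const_mul, integral_indicator_const _ hm]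
    simp
  rw [e3] at h3
  have h4 : θ / 2 * ∫ ω, Z ω ^ 2 ∂μ ≤ θ / 2 * B := mul_le_mul_of_nonneg_left h2 (by positivity)
  have h5 : a / 2 - θ / 2 * B ≤ 1 / (2 * θ) * μ.real {ω | a / 2 ≤ Z ω} := by linarith
  have h6 : a / 2 - θ / 2 * B = a / 4 := by
    rw [hθ]; field_simp; ring
  rw [h6] at h5
  have h7 : 1 / (2 * θ) = B / a := by
    rw [hθ]; field_simp
  rw [h7] at h5
  rw [div_le_iff₀ (by positivity)]
  rw [div_mul_eq_mul_div, le_div_iff₀ ha] at h5
  linarith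

/-- The second moment method for weighted sums of indicators. -/
theorem second {Y : Type*} (H : Y → Set Ω) (hH : ∀ x, MeasurableSet (H x)) (T : Finset Y)
    (w : Y → ℝ) (hw : ∀ x ∈ T, 0 ≤ w x) (hw1 : ∑ x ∈ T, w x = 1) (κ ϰ : Y → Y → ℝ)
    (hϰ : ∀ x y, 0 ≤ ϰ x y)
    {a b I J : ℝ} (ha : 0 < a) (hb : 0 < b) (hI : 0 < I) (hJ : 0 < J)
    (h1 : ∀ x ∈ T, a ≤ μ.real (H x)) (h2 : ∀ x ∈ T, ∀ y ∈ T, μ.real (H x ∩ H y) ≤ b * κ x y)
    (hI' : ∑ x ∈ T, ∑ y ∈ T, w x * w y * κ x y ≤ I)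
    (hJ' : ∑ x ∈ T, ∑ y ∈ T, w x * w y * (κ x y * ϰ x y) ≤ J) :
    ∃ G : Set Ω, MeasurableSet G ∧ a ^ 2 / (8 * (b * I)) ≤ μ.real G ∧ ∀ ω ∈ G,
      a / 2 ≤ ∑ x ∈ T, w x * (H x).indicator (fun _ => (1:ℝ)) ω ∧
      ∑ x ∈ T, ∑ y ∈ T, w x * w y * ϰ x y * (H x ∩ H y).indicator (fun _ => (1:ℝ)) ω ≤
        8 * b ^ 2 * I * J / a ^ 2 := by
  classical
  set Z : Ω → ℝ := fun ω => ∑ x ∈ T, w x * (H x).indicator (fun _ => (1:ℝ)) ω with hZ
  set V : Ω → ℝ := fun ω =>
    ∑ x ∈ T, ∑ y ∈ T, w x * w y * ϰ x y * (H x ∩ H y).indicator (fun _ => (1:ℝ)) ω with hV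
  have hmi : ∀ A : Set Ω, MeasurableSet A → Measurable (A.indicator (fun _ => (1:ℝ))) :=
    fun A hA => measurable_const.indicator hA
  have hii : ∀ A : Set Ω, MeasurableSet A → Integrable (A.indicator (fun _ => (1:ℝ))) μ :=
    fun A hA => (integrable_const (1:ℝ)).indicator hA
  have hint : ∀ A : Set Ω, MeasurableSet A →
      ∫ ω, A.indicator (fun _ => (1:ℝ)) ω ∂μ = μ.real A := by
    intro A hA
    rw [integral_indicator_const _ hA]
    simp
  have hZm : Measurable Z := Finset.measurable_sum _ fun x _ => (hmi _ (hH x)).const_mul _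
  have hVm : Measurable V := Finset.measurable_sum _ fun x _ => Finset.measurable_sum _ fun y _ =>
    (hmi _ ((hH x).inter (hH y))).const_mul _
  have hZi : Integrable Z μ := integrable_finsetSum _ fun x _ => (hii _ (hH x)).const_mul _
  have hVi : Integrable V μ := integrable_finsetSum _ fun x _ => integrable_finsetSum _ fun y _ =>
    (hii _ ((hH x).inter (hH y))).const_mul _
  have hZ2 : ∀ ω, Z ω ^ 2 =
      ∑ x ∈ T, ∑ y ∈ T, w x * w y * (H x ∩ H y).indicator (fun _ => (1:ℝ)) ω := by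
    intro ω
    rw [hZ, sq, Finset.sum_mul_sum]
    refine Finset.sum_congr rfl fun x _ => Finset.sum_congr rfl fun y _ => ?_
    have e : (H x ∩ H y).indicator (fun _ => (1:ℝ)) ω =
        (H x).indicator (fun _ => (1:ℝ)) ω * (H y).indicator (fun _ => (1:ℝ)) ω := by
      by_cases hx : ω ∈ H x <;> by_cases hy : ω ∈ H y <;> simp [hx, hy]
    rw [e]
    ring
  have hZ2i : Integrable (fun ω => Z ω ^ 2) μ := by
    simp_rw [hZ2]
    exact integrable_finsetSum _ fun x _ => integrable_finsetSum _ fun y _ =>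
      (hii _ ((hH x).inter (hH y))).const_mul _
  have hEZ : a ≤ ∫ ω, Z ω ∂μ := by
    rw [hZ]
    rw [integral_finsetSum _ fun x _ => (hii _ (hH x)).const_mul _]
    simp_rw [integral_const_mul]
    calc a = ∑ x ∈ T, w x * a := by rw [← Finset.sum_mul, hw1, one_mul]
      _ ≤ ∑ x ∈ T, w x * ∫ ω, (H x).indicator (fun _ => (1:ℝ)) ω ∂μ := by
        refine Finset.sum_le_sum fun x hx => ?_
        rw [hint _ (hH x)]
        exact mul_le_mul_of_nonneg_left (h1 x hx) (hw x hx)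
  have hEZ2 : ∫ ω, Z ω ^ 2 ∂μ ≤ b * I := by
    simp_rw [hZ2]
    rw [integral_finsetSum _ fun x _ => integrable_finsetSum _ fun y _ =>
      (hii _ ((hH x).inter (hH y))).const_mul _]
    refine le_trans ?_ (mul_le_mul_of_nonneg_left hI' hb.le)
    rw [Finset.mul_sum]
    refine Finset.sum_le_sum fun x hx => ?_
    rw [integral_finsetSum _ fun y _ => (hii _ ((hH x).inter (hH y))).const_mul _, Finset.mul_sum]
    refine Finset.sum_le_sum fun y hy => ?_
    rw [integral_const_mul, hint _ ((hH x).inter (hH y))]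
    have h3 := mul_le_mul_of_nonneg_left (h2 x hx y hy) (mul_nonneg (hw x hx) (hw y hy))
    linarith
  have hEV : ∫ ω, V ω ∂μ ≤ b * J := by
    rw [hV]
    rw [integral_finsetSum _ fun x _ => integrable_finsetSum _ fun y _ =>
      (hii _ ((hH x).inter (hH y))).const_mul _]
    refine le_trans ?_ (mul_le_mul_of_nonneg_left hJ' hb.le)
    rw [Finset.mul_sum]
    refine Finset.sum_le_sum fun x hx => ?_
    rw [integral_finsetSum _ fun y _ => (hii _ ((hH x).inter (hH y))).const_mul _, Finset.mul_sum]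
    refine Finset.sum_le_sum fun y hy => ?_
    rw [integral_const_mul, hint _ ((hH x).inter (hH y))]
    have h3 := mul_le_mul_of_nonneg_left (h2 x hx y hy)
      (mul_nonneg (mul_nonneg (hw x hx) (hw y hy)) (hϰ x y))
    linarith
  have hP := pz hZm hZi hZ2i ha (mul_pos hb hI) hEZ hEZ2
  obtain ⟨lam, hlam⟩ : ∃ lam, lam = 8 * b ^ 2 * I * J / a ^ 2 := ⟨_, rfl⟩
  have hlam0 : 0 < lam := by rw [hlam]; positivity
  have hV0 : 0 ≤ᵐ[μ] V := Eventually.of_forall fun ω => by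
    rw [hV]
    refine Finset.sum_nonneg fun x hx => Finset.sum_nonneg fun y hy => ?_
    exact mul_nonneg (mul_nonneg (mul_nonneg (hw x hx) (hw y hy)) (hϰ x y))
      (Set.indicator_nonneg (fun _ _ => zero_le_one) _)
  have hMk := mul_meas_ge_le_integral_of_nonneg hV0 hVi lam
  have hMk2 : μ.real {ω | lam ≤ V ω} ≤ a ^ 2 / (8 * (b * I)) := by
    have h3 : lam * μ.real {ω | lam ≤ V ω} ≤ b * J := hMk.trans hEV
    have h4 : μ.real {ω | lam ≤ V ω} ≤ b * J / lam := by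
      rw [le_div_iff₀ hlam0]; linarith
    refine h4.trans (le_of_eq ?_)
    rw [hlam]
    field_simp
  refine ⟨{ω | a / 2 ≤ Z ω} \ {ω | lam ≤ V ω},
    (measurableSet_le measurable_const hZm).diff (measurableSet_le measurable_const hVm), ?_, ?_⟩
  · have h4 : μ.real {ω | a / 2 ≤ Z ω} ≤
        μ.real ({ω | a / 2 ≤ Z ω} \ {ω | lam ≤ V ω}) + μ.real {ω | lam ≤ V ω} := by
      refine le_trans (measureReal_mono ?_) (measureReal_union_le _ _)
      intro ω hω
      by_cases h : ω ∈ {ω | lam ≤ V ω}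
      · exact Or.inr h
      · exact Or.inl ⟨hω, h⟩
    have h5 : a ^ 2 / (4 * (b * I)) = 2 * (a ^ 2 / (8 * (b * I))) := by
      field_simp
      ring
    linarith
  · rintro ω ⟨h3, h4⟩
    refine ⟨h3, ?_⟩
    have h5 : ¬ (lam ≤ V ω) := h4
    push Not at h5
    rw [← hlam]
    exact h5.le

theorem limsup_prob {G : ℕ → Set Ω} (hG : ∀ n, MeasurableSet (G n)) {p : ℝ}
    (hp : ∀ n, p ≤ μ.real (G n)) : ENNReal.ofReal p ≤ μ {ω | ∃ᶠ n in atTop, ω ∈ G n} := by
  have e : {ω | ∃ᶠ n in atTop, ω ∈ G n} = ⋂ N : ℕ, ⋃ n : ℕ, ⋃ _ : N ≤ n, G n := by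
    ext ω
    simp only [Set.mem_ofPred_eq, frequently_atTop, Set.mem_iInter, Set.mem_iUnion, exists_prop]
  rw [e]
  have hanti : Antitone (fun N : ℕ => ⋃ n : ℕ, ⋃ _ : N ≤ n, G n) := by
    intro a b hab ω hω
    simp only [Set.mem_iUnion, exists_prop] at hω ⊢
    obtain ⟨n, hn, h⟩ := hω
    exact ⟨n, hab.trans hn, h⟩
  have hms : ∀ N : ℕ, MeasurableSet (⋃ n : ℕ, ⋃ _ : N ≤ n, G n) := fun N =>
    MeasurableSet.iUnion fun n => MeasurableSet.iUnion fun _ => hG n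
  have ht := tendsto_measure_iInter_atTop (μ := μ) (fun N => (hms N).nullMeasurableSet) hanti
    ⟨0, measure_ne_top _ _⟩
  refine ge_of_tendsto' ht fun N => ?_
  have h1 : G N ⊆ ⋃ n : ℕ, ⋃ _ : N ≤ n, G n := by
    intro ω hω
    simp only [Set.mem_iUnion, exists_prop]
    exact ⟨N, le_rfl, hω⟩
  refine le_trans ?_ (measure_mono h1)
  rw [ENNReal.ofReal_le_iff_le_toReal (measure_ne_top _ _)]
  exact hp N

end PZ

/-- The random set meets the closed ball. -/
def Hit {Ω Y : Type*} [MetricSpace Y] (K : Ω → Set Y) (z : Y) (r : ℝ) : Set Ω :=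
  {ω | (K ω ∩ closedBall z r).Nonempty}

section Main

variable {Ω : Type*} [MeasurableSpace Ω] {μ : Measure Ω} [IsProbabilityMeasure μ]
  {Y : Type*} [MetricSpace Y]

theorem cover_eventually {A S O : Set Y} (hA : IsCompact A) (hS : IsCompact S) (hO : IsOpen O)
    (h : A ∩ S ⊆ O) : ∃ ε : ℝ, 0 < ε ∧ ∀ r, r ≤ ε → A ∩ cthickening r S ⊆ O := by
  have hd : Disjoint (A \ O) S := by
    rw [Set.disjoint_left]
    rintro x ⟨hx, hxO⟩ hxS
    exact hxO (h ⟨hx, hxS⟩)
  obtain ⟨ε, hε, hdis⟩ := hd.exists_cthickenings (hA.diff hO) hS.isClosed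
  refine ⟨ε, hε, fun r hr x hx => ?_⟩
  by_contra hxO
  exact Set.disjoint_left.mp hdis (self_subset_cthickening _ ⟨hx.1, hxO⟩)
    (cthickening_mono hr _ hx.2)

/-- The probability that the random set meets `S`. -/
theorem hit_prob (K : Ω → Set Y) (hK : ∀ ω, IsCompact (K ω))
    (hm : ∀ z r, MeasurableSet (Hit K z r)) {S : Set Y} (hS : IsCompact S)
    {α c C r0 I : ℝ} (hc : 0 < c) (hC : 0 < C) (hr0 : 0 < r0) (hI : 0 < I)
    (h1 : ∀ z ∈ S, ∀ r, 0 < r → r ≤ r0 → c * r ^ α ≤ μ.real (Hit K z r))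
    (h2 : ∀ z ∈ S, ∀ w ∈ S, ∀ r, 0 < r → r ≤ r0 →
      μ.real (Hit K z r ∩ Hit K w r) ≤ C * r ^ (2 * α) * (max (dist z w) r) ^ (-α))
    (hE : ∀ r, 0 < r → r ≤ r0 → ∃ (T : Finset Y) (w : Y → ℝ), (∀ x ∈ T, x ∈ S) ∧
      (∀ x ∈ T, 0 ≤ w x) ∧ ∑ x ∈ T, w x = 1 ∧
      ∑ x ∈ T, ∑ y ∈ T, w x * w y * (max (dist x y) r) ^ (-α) ≤ I) :
    ENNReal.ofReal (c ^ 2 / (8 * (C * I))) ≤ μ {ω | (K ω ∩ S).Nonempty} := by
  classical
  obtain ⟨ρ, hρ⟩ : ∃ ρ : ℕ → ℝ, ρ = fun n : ℕ => r0 / ((n : ℝ) + 1) := ⟨_, rfl⟩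
  have hρ0 : ∀ n, 0 < ρ n := fun n => by rw [hρ]; positivity
  have hρ1 : ∀ n, ρ n ≤ r0 := fun n => by
    rw [hρ]
    apply div_le_self hr0.le
    have : (0:ℝ) ≤ n := Nat.cast_nonneg n
    linarith
  have key : ∀ n, ∃ G : Set Ω, MeasurableSet G ∧ c ^ 2 / (8 * (C * I)) ≤ μ.real G ∧
      ∀ ω ∈ G, (K ω ∩ cthickening (ρ n) S).Nonempty := by
    intro n
    obtain ⟨T, w, hTS, hw, hw1, hTI⟩ := hE (ρ n) (hρ0 n) (hρ1 n)
    have hr := hρ0 n
    set r : ℝ := ρ n with hrd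
    have hra : 0 < r ^ α := Real.rpow_pos_of_pos hr _
    obtain ⟨G, hG, hGp, hGω⟩ := second (μ := μ) (fun x => Hit K x r) (fun x => hm x r) T w hw hw1
      (fun x y => (max (dist x y) r) ^ (-α)) (fun _ _ => 0) (fun _ _ => le_rfl)
      (a := c * r ^ α) (b := C * r ^ (2 * α)) (I := I) (J := 1) (by positivity) (by positivity)
      hI one_pos (fun x hx => h1 x (hTS x hx) r hr (hρ1 n))
      (fun x hx y hy => h2 x (hTS x hx) y (hTS y hy) r hr (hρ1 n)) hTI (by simp)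
    have e : r ^ (2 * α) = r ^ α * r ^ α := by
      rw [← Real.rpow_add hr]; congr 1; ring
    refine ⟨G, hG, ?_, ?_⟩
    · refine le_trans (le_of_eq ?_) hGp
      rw [e]
      field_simp
    · intro ω hω
      obtain ⟨h3, -⟩ := hGω ω hω
      have h4 : 0 < ∑ x ∈ T, w x * (Hit K x r).indicator (fun _ => (1:ℝ)) ω :=
        lt_of_lt_of_le (by positivity) h3
      obtain ⟨x, hx, hx2⟩ := Finset.exists_ne_zero_of_sum_ne_zero h4.ne'
      have hx3 : ω ∈ Hit K x r := by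
        by_contra hcon
        rw [Set.indicator_of_notMem hcon, mul_zero] at hx2
        exact hx2 rfl
      obtain ⟨a, ha, hax⟩ := hx3
      exact ⟨a, ha, mem_cthickening_of_dist_le a x r S (hTS x hx) hax⟩
  choose G hG hGp hGω using key
  refine (limsup_prob hG hGp).trans (measure_mono ?_)
  intro ω hω
  have hω' : ∃ᶠ n in atTop, ω ∈ G n := hω
  show (K ω ∩ S).Nonempty
  by_contra hcon
  rw [Set.not_nonempty_iff_eq_empty] at hcon
  obtain ⟨ε, hε, hcov⟩ := cover_eventually (hK ω) hS isOpen_empty (by rw [hcon])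
  have hlim : Tendsto ρ atTop (𝓝 0) := by
    rw [hρ]
    have := (tendsto_one_div_add_atTop_nhds_zero_nat (𝕜 := ℝ)).const_mul r0
    rw [mul_zero] at this
    refine this.congr fun n => ?_
    ring
  obtain ⟨n, hn1, hn2⟩ := (hω'.and_eventually (hlim.eventually_lt_const hε)).exists
  exact (hGω n ω hn1).ne_empty (Set.subset_empty_iff.mp (hcov (ρ n) hn2.le))

/-- The probability that the intersection with `S` has dimension at least `t`. -/
theorem dim_prob (K : Ω → Set Y) (hK : ∀ ω, IsCompact (K ω))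
    (hm : ∀ z r, MeasurableSet (Hit K z r)) {S : Set Y} (hS : IsCompact S)
    {α t c C r0 I J : ℝ} (ht : 0 < t) (hc : 0 < c) (hC : 0 < C) (hr0 : 0 < r0) (hI : 0 < I)
    (hJ : 0 < J)
    (h1 : ∀ z ∈ S, ∀ r, 0 < r → r ≤ r0 → c * r ^ α ≤ μ.real (Hit K z r))
    (h2 : ∀ z ∈ S, ∀ w ∈ S, ∀ r, 0 < r → r ≤ r0 →
      μ.real (Hit K z r ∩ Hit K w r) ≤ C * r ^ (2 * α) * (max (dist z w) r) ^ (-α))
    (hE : ∀ r, 0 < r → r ≤ r0 → ∃ (T : Finset Y) (w : Y → ℝ), (∀ x ∈ T, x ∈ S) ∧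
      (∀ x ∈ T, 0 ≤ w x) ∧ ∑ x ∈ T, w x = 1 ∧
      ∑ x ∈ T, ∑ y ∈ T, w x * w y * (max (dist x y) r) ^ (-α) ≤ I ∧
      ∑ x ∈ T, ∑ y ∈ T, w x * w y * (max (dist x y) r) ^ (-(α + t)) ≤ J) :
    ENNReal.ofReal (c ^ 2 / (8 * (C * I))) ≤ μ {ω | ENNReal.ofReal t ≤ dimH (K ω ∩ S)} := by
  classical
  obtain ⟨ρ, hρ⟩ : ∃ ρ : ℕ → ℝ, ρ = fun n : ℕ => r0 / ((n : ℝ) + 1) := ⟨_, rfl⟩
  have hρ0 : ∀ n, 0 < ρ n := fun n => by rw [hρ]; positivity
  have hρ1 : ∀ n, ρ n ≤ r0 := fun n => by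
    rw [hρ]
    apply div_le_self hr0.le
    have : (0:ℝ) ≤ n := Nat.cast_nonneg n
    linarith
  obtain ⟨E, hEd⟩ : ∃ E : ℝ, E = 32 * C ^ 2 * I * J / c ^ 4 := ⟨_, rfl⟩
  have hE0 : 0 < E := by rw [hEd]; positivity
  have key : ∀ n, ∃ G : Set Ω, MeasurableSet G ∧ c ^ 2 / (8 * (C * I)) ≤ μ.real G ∧
      ∀ ω ∈ G, Good t (ρ n) (4 ^ (-t) / E) (K ω ∩ cthickening (ρ n) S) := by
    intro n
    obtain ⟨T, w, hTS, hw, hw1, hTI, hTJ⟩ := hE (ρ n) (hρ0 n) (hρ1 n)
    have hr := hρ0 n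
    set r : ℝ := ρ n with hrd
    have hra : 0 < r ^ α := Real.rpow_pos_of_pos hr _
    have hmx : ∀ x y : Y, 0 < max (dist x y) r := fun x y => lt_of_lt_of_le hr (le_max_right _ _)
    obtain ⟨G, hG, hGp, hGω⟩ := second (μ := μ) (fun x => Hit K x r) (fun x => hm x r) T w hw hw1
      (fun x y => (max (dist x y) r) ^ (-α)) (fun x y => (max (dist x y) r) ^ (-t))
      (fun x y => Real.rpow_nonneg (hmx x y).le _)
      (a := c * r ^ α) (b := C * r ^ (2 * α)) (I := I) (J := J) (by positivity) (by positivity)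
      hI hJ (fun x hx => h1 x (hTS x hx) r hr (hρ1 n))
      (fun x hx y hy => h2 x (hTS x hx) y (hTS y hy) r hr (hρ1 n)) hTI (by
        refine le_trans (le_of_eq ?_) hTJ
        refine Finset.sum_congr rfl fun x _ => Finset.sum_congr rfl fun y _ => ?_
        rw [← Real.rpow_add (hmx x y)]
        congr 2
        ring)
    have e : r ^ (2 * α) = r ^ α * r ^ α := by
      rw [← Real.rpow_add hr]; congr 1; ring
    refine ⟨G, hG, ?_, ?_⟩
    · refine le_trans (le_of_eq ?_) hGp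
      rw [e]
      field_simp
    · intro ω hω
      obtain ⟨h3, h4⟩ := hGω ω hω
      set Tω : Finset Y := T.filter (fun x => ω ∈ Hit K x r) with hTω
      have eZ : ∑ x ∈ T, w x * (Hit K x r).indicator (fun _ => (1:ℝ)) ω = ∑ x ∈ Tω, w x := by
        rw [hTω, Finset.sum_filter]
        refine Finset.sum_congr rfl fun x _ => ?_
        by_cases hx : ω ∈ Hit K x r
        · rw [if_pos hx, Set.indicator_of_mem hx, mul_one]
        · rw [if_neg hx, Set.indicator_of_notMem hx, mul_zero]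
      have eV : ∑ x ∈ T, ∑ y ∈ T, w x * w y * (max (dist x y) r) ^ (-t) *
          (Hit K x r ∩ Hit K y r).indicator (fun _ => (1:ℝ)) ω =
          ∑ x ∈ Tω, ∑ y ∈ Tω, w x * w y * (max (dist x y) r) ^ (-t) := by
        rw [hTω, Finset.sum_filter]
        refine Finset.sum_congr rfl fun x _ => ?_
        by_cases hx : ω ∈ Hit K x r
        · rw [if_pos hx, Finset.sum_filter]
          refine Finset.sum_congr rfl fun y _ => ?_
          by_cases hy : ω ∈ Hit K y r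
          · rw [if_pos hy, Set.indicator_of_mem (show ω ∈ Hit K x r ∩ Hit K y r from ⟨hx, hy⟩),
              mul_one]
          · rw [if_neg hy, Set.indicator_of_notMem (fun h => hy h.2), mul_zero]
        · rw [if_neg hx]
          refine Finset.sum_eq_zero fun y _ => ?_
          rw [Set.indicator_of_notMem (fun h => hx h.1), mul_zero]
      rw [eZ] at h3
      rw [eV] at h4
      have hZpos : 0 < ∑ x ∈ Tω, w x := lt_of_lt_of_le (by positivity) h3
      refine good_of_wenergy hr ht.le hE0 Tω w (fun x hx => hw x (Finset.mem_filter.mp hx).1) hZpos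
        ?_ ?_
      · intro x hx
        rw [hTω, Finset.mem_filter] at hx
        obtain ⟨a, ha, hax⟩ := hx.2
        exact ⟨a, ⟨ha, mem_cthickening_of_dist_le a x r S (hTS x hx.1) hax⟩, hax⟩
      · have h5 : (c * r ^ α / 2) ^ 2 ≤ (∑ x ∈ Tω, w x) ^ 2 :=
          pow_le_pow_left₀ (by positivity) h3 2
        refine h4.trans ?_
        calc 8 * (C * r ^ (2 * α)) ^ 2 * I * J / (c * r ^ α) ^ 2
            = E * (c * r ^ α / 2) ^ 2 := by
              rw [e, hEd]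
              field_simp
              ring
          _ ≤ _ := mul_le_mul_of_nonneg_left h5 hE0.le
  choose G hG hGp hGω using key
  refine (limsup_prob hG hGp).trans (measure_mono ?_)
  intro ω hω
  have hω' : ∃ᶠ n in atTop, ω ∈ G n := hω
  show ENNReal.ofReal t ≤ dimH (K ω ∩ S)
  have hlim : Tendsto ρ atTop (𝓝 0) := by
    rw [hρ]
    have := (tendsto_one_div_add_atTop_nhds_zero_nat (𝕜 := ℝ)).const_mul r0
    rw [mul_zero] at this
    refine this.congr fun n => ?_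
    ring
  refine le_dimH_of_good ht (c := 4 ^ (-t) / E) (by positivity) ((hK ω).inter hS) ?_
  intro δ hδ s hs hcov
  obtain ⟨ε, hε, hcov2⟩ := cover_eventually (hK ω) hS
    (isOpen_biUnion fun p _ => isOpen_ball) hcov
  obtain ⟨n, hn1, hn2⟩ := (hω'.and_eventually
    (hlim.eventually_lt_const (lt_min hε hδ))).exists
  have hn3 : ρ n ≤ ε := hn2.le.trans (min_le_left _ _)
  have hn4 : ρ n ≤ δ := hn2.le.trans (min_le_right _ _)
  exact hGω n ω hn1 s (fun p hp => hn4.trans (hs p hp)) (hcov2 (ρ n) hn3)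

end Main

end Pool.Agent.TH966.HD
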