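import Mathlib
import Pool.Agent.H744R2.Falc.FrostH

/-!
Riesz energy of a measure: discretisation, and the energy of Frostman measures.
-/

set_option autoImplicit false

namespace Pool.Agent.TH966.HD

open MeasureTheory Filter Topology Metric Set
open scoped ENNReal NNReal

/-- Riesz energy with exponent `β`. -/
noncomputable def energy {Y : Type*} [MetricSpace Y] [MeasurableSpace Y] (β : ℝ) (ν : Measure Y) :
    ℝ≥0∞ := ∫⁻ x, ∫⁻ y, (edist x y) ^ (-β) ∂ν ∂ν

theorem pow_neg_le {a b : ℝ≥0∞} {β : ℝ} (hβ : 0 ≤ β) (h : a ≤ 3 * b) :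
    b ^ (-β) ≤ 3 ^ β * a ^ (-β) := by
  have h1 : a ^ β ≤ 3 ^ β * b ^ β := by
    rw [← ENNReal.mul_rpow_of_nonneg _ _ hβ]
    exact ENNReal.rpow_le_rpow h hβ
  rw [ENNReal.rpow_neg, ENNReal.rpow_neg]
  have h3 : (3:ℝ≥0∞) ^ β ≠ 0 := (ENNReal.rpow_pos (by norm_num) (by norm_num)).ne'
  have h3' : (3:ℝ≥0∞) ^ β ≠ ⊤ := ENNReal.rpow_ne_top_of_nonneg hβ (by norm_num)
  have h2 : (3 ^ β * b ^ β)⁻¹ ≤ (a ^ β)⁻¹ := ENNReal.inv_le_inv.mpr h1
  calc (b ^ β)⁻¹ = 3 ^ β * (3 ^ β * b ^ β)⁻¹ := by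
        rw [ENNReal.mul_inv (Or.inl h3) (Or.inl h3'), ← mul_assoc,
          ENNReal.mul_inv_cancel h3 h3', one_mul]
    _ ≤ _ := by gcongr

/-- Discretisation of a probability measure on a compact set. -/
theorem disc {Y : Type*} [MetricSpace Y] [MeasurableSpace Y] [OpensMeasurableSpace Y] {S : Set Y}
    (hS : IsCompact S) {ν : Measure Y} [IsProbabilityMeasure ν] (hν : ν Sᶜ = 0) {r : ℝ}
    (hr : 0 < r) : ∃ (T : Finset Y) (w : Y → ℝ), (∀ x ∈ T, x ∈ S) ∧ (∀ x ∈ T, 0 ≤ w x) ∧
      ∑ x ∈ T, w x = 1 ∧ ∀ β : ℝ, 0 ≤ β → energy β ν ≠ ⊤ →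
        ∑ x ∈ T, ∑ y ∈ T, w x * w y * (max (dist x y) r) ^ (-β) ≤
          3 ^ β * (energy β ν).toReal := by
  classical
  obtain ⟨t, htS, htf, hcov⟩ := hS.finite_cover_balls hr
  have hSne : S.Nonempty := by
    by_contra hcon
    rw [Set.not_nonempty_iff_eq_empty] at hcon
    rw [hcon, Set.compl_empty, measure_univ] at hν
    exact one_ne_zero hν
  have htne : t.Nonempty := by
    obtain ⟨x, hx⟩ := hSne
    obtain ⟨y, hy, -⟩ := Set.mem_iUnion₂.mp (hcov hx)
    exact ⟨y, hy⟩
  obtain ⟨y0, hy0⟩ := htne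
  -- enumeration
  obtain ⟨e, N, het, hes⟩ : ∃ (e : ℕ → Y) (N : ℕ), (∀ n, e n ∈ t) ∧ ∀ x ∈ t, ∃ k ≤ N, e k = x := by
    obtain ⟨n, f, hf⟩ := htf.fin_embedding
    refine ⟨fun k => if h : k < n then f ⟨k, h⟩ else y0, n, fun k => ?_, fun x hx => ?_⟩
    · simp only
      split_ifs with h
      · rw [← hf]; exact ⟨_, rfl⟩
      · exact hy0
    · rw [← hf] at hx
      obtain ⟨k, rfl⟩ := hx
      exact ⟨k, k.2.le, by simp⟩
  set g := SimpleFunc.nearestPt e N with hg
  have hgt : ∀ x, g x ∈ t := by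
    intro x
    have : g x = e (SimpleFunc.nearestPtInd e N x) := rfl
    rw [this]
    exact het _
  have hgd : ∀ x ∈ S, dist (g x) x ≤ r := by
    intro x hx
    obtain ⟨y, hy, hxy⟩ := Set.mem_iUnion₂.mp (hcov hx)
    obtain ⟨k, hk, rfl⟩ := hes y hy
    have h1 := SimpleFunc.edist_nearestPt_le e x hk
    rw [edist_dist, edist_dist] at h1
    have h2 := (ENNReal.ofReal_le_ofReal_iff dist_nonneg).mp h1
    rw [mem_ball, dist_comm] at hxy
    exact h2.trans hxy.le
  refine ⟨g.range, fun x => ν.real (g ⁻¹' {x}), ?_, fun _ _ => measureReal_nonneg, ?_, ?_⟩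
  · intro x hx
    obtain ⟨y, rfl⟩ := SimpleFunc.mem_range.mp hx
    exact htS (hgt y)
  · have h1 := SimpleFunc.sum_range_measure_preimage_singleton g ν
    rw [measure_univ] at h1
    have h2 := congrArg ENNReal.toReal h1
    rw [ENNReal.toReal_sum (fun _ _ => measure_ne_top _ _)] at h2
    simpa [Measure.real] using h2
  · intro β hβ hfin
    have hk0 : ∀ x y : Y, 0 < max (dist x y) r := fun x y => lt_of_lt_of_le hr (le_max_right _ _)
    have hone : ∀ φ : Y → ℝ≥0∞, ∑ x ∈ g.range, φ x * ν (g ⁻¹' {x}) = ∫⁻ x, φ (g x) ∂ν := by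
      intro φ
      rw [← SimpleFunc.map_lintegral, ← SimpleFunc.lintegral_eq_lintegral]
      rfl
    have h1 : ENNReal.ofReal (∑ x ∈ g.range, ∑ y ∈ g.range,
        ν.real (g ⁻¹' {x}) * ν.real (g ⁻¹' {y}) * (max (dist x y) r) ^ (-β)) =
        ∫⁻ x, ∫⁻ y, ENNReal.ofReal ((max (dist (g x) (g y)) r) ^ (-β)) ∂ν ∂ν := by
      rw [ENNReal.ofReal_sum_of_nonneg (fun x _ => Finset.sum_nonneg fun y _ => by
        have := Real.rpow_nonneg (hk0 x y).le (-β)
        positivity)]
      rw [← hone (fun a => ∫⁻ y, ENNReal.ofReal ((max (dist a (g y)) r) ^ (-β)) ∂ν)]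
      refine Finset.sum_congr rfl fun x _ => ?_
      rw [ENNReal.ofReal_sum_of_nonneg (fun y _ => by
        have := Real.rpow_nonneg (hk0 x y).le (-β)
        positivity)]
      rw [← hone (fun b => ENNReal.ofReal ((max (dist x b) r) ^ (-β))), Finset.sum_mul]
      refine Finset.sum_congr rfl fun y _ => ?_
      rw [ENNReal.ofReal_mul (by positivity), ENNReal.ofReal_mul measureReal_nonneg,
        ofReal_measureReal, ofReal_measureReal]
      ring
    have hae : ∀ᵐ x ∂ν, x ∈ S := by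
      rw [ae_iff]
      exact hν
    have h2 : ∫⁻ x, ∫⁻ y, ENNReal.ofReal ((max (dist (g x) (g y)) r) ^ (-β)) ∂ν ∂ν ≤
        3 ^ β * energy β ν := by
      unfold energy
      rw [← lintegral_const_mul' _ _ (ENNReal.rpow_ne_top_of_nonneg hβ (by norm_num))]
      refine lintegral_mono_ae ?_
      filter_upwards [hae] with x hx
      rw [← lintegral_const_mul' _ _ (ENNReal.rpow_ne_top_of_nonneg hβ (by norm_num))]
      refine lintegral_mono_ae ?_
      filter_upwards [hae] with y hy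
      rw [← ENNReal.ofReal_rpow_of_pos (hk0 _ _)]
      apply pow_neg_le hβ
      rw [edist_dist, show (3:ℝ≥0∞) = ENNReal.ofReal 3 by norm_num,
        ← ENNReal.ofReal_mul (by norm_num)]
      apply ENNReal.ofReal_le_ofReal
      have h3 := dist_triangle4 x (g x) (g y) y
      have h4 := hgd x hx
      have h5 := hgd y hy
      rw [dist_comm] at h4
      have h6 := le_max_left (dist (g x) (g y)) r
      have h7 := le_max_right (dist (g x) (g y)) r
      linarith
    rw [← ENNReal.ofReal_le_ofReal_iff (by positivity), h1]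
    refine h2.trans (le_of_eq ?_)
    rw [ENNReal.ofReal_mul (by positivity), ENNReal.ofReal_toReal hfin,
      ← ENNReal.ofReal_rpow_of_pos (by norm_num)]
    norm_num

/-- Frostman measures have finite energy. -/
theorem energy_frostman {Y : Type*} [MetricSpace Y] [MeasurableSpace Y] [BorelSpace Y]
    [SecondCountableTopology Y]
    {ν : Measure Y} [IsProbabilityMeasure ν] {C s β : ℝ} (hC : 0 < C) (hβ : 0 < β) (hs : β < s)
    (h : ∀ (x : Y) (r : ℝ), 0 < r → ν (closedBall x r) ≤ ENNReal.ofReal (C * r ^ s)) :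
    energy β ν ≠ ⊤ := by
  obtain ⟨q, hq⟩ : ∃ q : ℝ, q = (1/2 : ℝ) ^ (s - β) := ⟨_, rfl⟩
  have hq0 : 0 < q := by rw [hq]; positivity
  have hq1 : q < 1 := by
    rw [hq]
    exact Real.rpow_lt_one (by norm_num) (by norm_num) (by linarith)
  obtain ⟨A, hA⟩ : ∃ A : ℝ, A = C * 2 ^ β := ⟨_, rfl⟩
  have hA0 : 0 < A := by rw [hA]; positivity
  have key : ∀ x : Y, ∫⁻ y, (edist x y) ^ (-β) ∂ν ≤ 1 + ENNReal.ofReal (∑' k : ℕ, A * q ^ k) := by
    intro x
    have hx0 : ν {x} = 0 := by
      rw [← nonpos_iff_eq_zero]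
      have hlim : Tendsto (fun n : ℕ => ENNReal.ofReal (C * (1 / ((n:ℝ) + 1)) ^ s)) atTop (𝓝 0) := by
        have h1 : Tendsto (fun n : ℕ => C * (1 / ((n:ℝ) + 1)) ^ s) atTop (𝓝 0) := by
          have h2 : Tendsto (fun n : ℕ => (1 / ((n:ℝ) + 1)) ^ s) atTop (𝓝 (0 ^ s)) :=
            (tendsto_one_div_add_atTop_nhds_zero_nat (𝕜 := ℝ)).rpow_const (Or.inr (by linarith))
          rw [Real.zero_rpow (by linarith)] at h2
          have h3 := h2.const_mul C
          rwa [mul_zero] at h3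
        have h4 := ENNReal.tendsto_ofReal h1
        rwa [ENNReal.ofReal_zero] at h4
      refine ge_of_tendsto' hlim fun n => ?_
      refine le_trans (measure_mono ?_) (h x (1 / ((n:ℝ) + 1)) (by positivity))
      rw [Set.singleton_subset_iff]
      exact mem_closedBall_self (by positivity)
    have hae : ∀ᵐ y ∂ν, y ≠ x := by
      rw [ae_iff]
      simpa using hx0
    have hpt : ∀ᵐ y ∂ν, (edist x y) ^ (-β) ≤ 1 + ∑' k : ℕ,
        (closedBall x ((1/2:ℝ) ^ k)).indicator (fun _ => ENNReal.ofReal ((2:ℝ) ^ (β * (k + 1)))) y := by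
      filter_upwards [hae] with y hy
      have hd : 0 < dist x y := dist_pos.mpr (Ne.symm hy)
      rw [edist_dist, ENNReal.ofReal_rpow_of_pos hd]
      rcases le_or_gt (dist x y) 1 with h1 | h1
      · obtain ⟨k, hk1, hk2⟩ := exists_nat_pow_near_of_lt_one hd h1 (by norm_num : (0:ℝ) < 1/2)
          (by norm_num)
        refine le_trans ?_ le_add_self
        refine le_trans ?_ (ENNReal.le_tsum k)
        rw [Set.indicator_of_mem (by rw [mem_closedBall, dist_comm]; exact hk2)]
        apply ENNReal.ofReal_le_ofReal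
        have h2 : (dist x y) ^ (-β) ≤ ((1/2:ℝ) ^ (k + 1)) ^ (-β) :=
          Real.rpow_le_rpow_of_nonpos (by positivity) hk1.le (by linarith)
        refine h2.trans (le_of_eq ?_)
        rw [← Real.rpow_natCast, ← Real.rpow_mul (by norm_num), one_div, Real.inv_rpow (by norm_num),
          ← Real.rpow_neg (by norm_num)]
        congr 1
        push_cast
        ring
      · refine le_trans ?_ le_self_add
        rw [← ENNReal.ofReal_one]
        apply ENNReal.ofReal_le_ofReal
        exact Real.rpow_le_one_of_one_le_of_nonpos h1.le (by linarith)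
    refine (lintegral_mono_ae hpt).trans ?_
    rw [lintegral_add_left measurable_const, lintegral_one, measure_univ]
    gcongr
    rw [lintegral_tsum (fun k => (measurable_const.indicator
      isClosed_closedBall.measurableSet).aemeasurable),
      ENNReal.ofReal_tsum_of_nonneg (fun k => by positivity)
        ((summable_geometric_of_lt_one hq0.le hq1).mul_left A)]
    refine ENNReal.tsum_le_tsum fun k => ?_
    rw [lintegral_indicator isClosed_closedBall.measurableSet, setLIntegral_const]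
    refine (mul_le_mul_right (h x ((1/2:ℝ) ^ k) (by positivity)) _).trans ?_
    rw [← ENNReal.ofReal_mul (by positivity)]
    apply ENNReal.ofReal_le_ofReal
    apply le_of_eq
    rw [hA, hq]
    have e1 : (2:ℝ) ^ (β * ((k:ℝ) + 1)) = 2 ^ β * ((1/2:ℝ) ^ k) ^ (-β) := by
      rw [← Real.rpow_natCast (1/2:ℝ) k, ← Real.rpow_mul (by norm_num), one_div,
        Real.inv_rpow (by norm_num), ← Real.rpow_neg (by norm_num), ← Real.rpow_add (by norm_num)]
      congr 1
      ring
    have e2 : ((1/2:ℝ) ^ (s - β)) ^ k = ((1/2:ℝ) ^ k) ^ s * ((1/2:ℝ) ^ k) ^ (-β) := by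
      rw [← Real.rpow_add (by positivity), ← Real.rpow_natCast, ← Real.rpow_natCast,
        ← Real.rpow_mul (by norm_num), ← Real.rpow_mul (by norm_num)]
      congr 1
      ring
    rw [e1, e2]
    ring
  unfold energy
  refine ne_top_of_le_ne_top ?_ (lintegral_mono key)
  rw [lintegral_const, measure_univ, mul_one]
  exact ENNReal.add_ne_top.mpr ⟨ENNReal.one_ne_top, ENNReal.ofReal_ne_top⟩

/-- Frostman's lemma in the complex plane. -/
theorem frostman_complex {S : Set ℂ} (hS : IsCompact S) {s : ℝ} (hs : 0 ≤ s)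
    (h : ENNReal.ofReal s < dimH S) : ∃ ν : Measure ℂ, IsProbabilityMeasure ν ∧ ν Sᶜ = 0 ∧
      ∃ C : ℝ, 0 < C ∧ ∀ (x : ℂ) (r : ℝ), 0 < r →
        ν (closedBall x r) ≤ ENNReal.ofReal (C * r ^ s) := by
  set φ : ℂ ≃ₗᵢ[ℝ] EuclideanSpace ℝ (Fin 2) := Complex.orthonormalBasisOneI.repr with hφ
  have hK : IsCompact (φ '' S) := hS.image φ.continuous
  have hd : dimH (φ '' S) = dimH S := φ.isometry.dimH_image S
  obtain ⟨ν, hν, hν0, C, hC, hb⟩ := Pool.Agent.H744R2.Falc.frostman_dimH 2 (φ '' S) hK s hs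
    (by rw [hd]; exact h)
  have hm : Measurable φ.symm := φ.symm.continuous.measurable
  refine ⟨ν.map φ.symm, Measure.isProbabilityMeasure_map hm.aemeasurable, ?_, C, hC, ?_⟩
  · rw [Measure.map_apply hm hS.isClosed.measurableSet.compl]
    refine measure_mono_null ?_ hν0
    intro x hx hx2
    obtain ⟨z, hz, rfl⟩ := hx2
    apply hx
    simpa using hz
  · intro x r hr
    rw [Measure.map_apply hm isClosed_closedBall.measurableSet]
    refine le_trans (measure_mono ?_) (hb (φ x) r hr)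
    intro y hy
    rw [Set.mem_preimage, mem_closedBall] at hy
    rw [mem_closedBall]
    calc dist y (φ x) = dist (φ (φ.symm y)) (φ x) := by simp
      _ = dist (φ.symm y) x := φ.isometry.dist_eq _ _
      _ ≤ r := hy

end Pool.Agent.TH966.HD
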