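import Pool.Agent.H934R3.D74.T3
import Pool.Agent.H934R3.D74.T9

/-!
Two-point upper bound for the trace of the exploration path.
-/

set_option autoImplicit false

namespace Pool.Agent.TH966.HD

open H974 H973 H12S H934E H934F Finset MeasureTheory TopologicalSpace Filter Topology

theorem near_k {S : Finset Edg} {v : Vtx} {k ρ N : ℕ} {F : Finset Edg} (hρ : ρ ≤ N)
    (h : Crs v.1 v.2 k N ↑F ∧ DCrs v.1 v.2 k N (↑(S \ F) : Set Edg)) :
    t3_An (t3_B v ρ) v k ρ F := by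
  obtain ⟨⟨x, y, hx, hy, h1⟩, ⟨x', y', hx', hy', h2⟩⟩ := h
  constructor
  · obtain ⟨z, hz, hp⟩ := t3_reach (G := (↑(F ∩ t3_B v ρ) : Set Edg))
      (X := (↑(t3_B v ρ) : Set Edg)) (t3_in v ρ)
      (fun e _ he => by exact_mod_cast t3_edge_near he) (by
        rw [Finset.coe_inter]) h1 (by unfold t3_in; omega)
    refine ⟨x, z, hx, ?_, hp⟩
    unfold t3_in at hz
    omega
  · obtain ⟨z, hz, hp⟩ := t3_dreach (G := (↑(t3_B v ρ \ F) : Set Edg))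
      (X := (↑(t3_B v ρ) : Set Edg)) (t3_in v ρ)
      (fun e _ he => by exact_mod_cast t3_edge_near' he) (by
        rw [Finset.coe_sdiff, Finset.coe_sdiff]
        exact fun e he => ⟨he.2, he.1.2⟩) h2 (by unfold t3_in; omega)
    refine ⟨x', z, hx', ?_, hp⟩
    unfold t3_in at hz
    omega

theorem far_k {S : Finset Edg} {v : Vtx} {k m N : ℕ} {F : Finset Edg} (hm : 1 ≤ m) (hkm : k ≤ m)
    (hF : F ⊆ S)
    (h : Crs v.1 v.2 k N ↑F ∧ DCrs v.1 v.2 k N (↑(S \ F) : Set Edg)) :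
    t3_An (S \ t3_B v (m - 1 : ℤ)) v m N F := by
  obtain ⟨⟨x, y, hx, hy, h1⟩, ⟨x', y', hx', hy', h2⟩⟩ := h
  unfold inR at hx hx'
  constructor
  · obtain ⟨z, hz, hp⟩ := t3_reach (G := (↑(F ∩ (S \ t3_B v (m - 1 : ℤ))) : Set Edg))
      (X := (↑(t3_B v (m - 1 : ℤ)) : Set Edg)ᶜ)
      (fun z => ¬ (v.1 - m ≤ z.1 ∧ z.1 ≤ v.1 + m ∧ v.2 - m ≤ z.2 ∧ z.2 ≤ v.2 + m))
      (fun e _ he => by
        intro h3
        have h4 := t3_edge_far (e := e) (by exact_mod_cast h3)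
        omega) (by
        rw [Finset.coe_inter, Finset.coe_sdiff]
        exact fun e he => ⟨he.1, Finset.mem_coe.2 (hF (Finset.mem_coe.1 he.1)), he.2⟩)
      h1.symm (by omega)
    refine ⟨z, y, ?_, hy, hp.symm⟩
    unfold inR; omega
  · obtain ⟨z, hz, hp⟩ := t3_dreach (G := (↑((S \ t3_B v (m - 1 : ℤ)) \ F) : Set Edg))
      (X := (↑(t3_B v (m - 1 : ℤ)) : Set Edg)ᶜ)
      (fun z => ¬ (v.1 - m ≤ z.1 ∧ z.1 ≤ v.1 + m ∧ v.2 - m ≤ z.2 ∧ z.2 ≤ v.2 + m))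
      (fun e _ he => by
        intro h3
        have h4 := t3_edge_far (e := e) (by exact_mod_cast h3)
        omega) (by
        rw [Finset.coe_sdiff, Finset.coe_sdiff, Finset.coe_sdiff]
        exact fun e he => ⟨⟨he.1.1, he.2⟩, he.1.2⟩) h2.symm (by omega)
    refine ⟨z, y', ?_, hy', hp.symm⟩
    unfold inR; omega

/-- the bound of `St_A` -/
def AB (C : ℝ) : Prop := ∀ r R : ℕ, 1 ≤ r → r ≤ R → ∀ (c1 c2 : ℤ) (S : Finset Edg),
    PQ (1/2) S (fun F => Crs c1 c2 r R ↑F ∧ DCrs c1 c2 r R (↑(S \ F) : Set Edg)) ≤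
      C * ((r : ℝ) / R) ^ (1/4 : ℝ)

/-- the two-arm event around `v` -/
def TA (S : Finset Edg) (v : Vtx) (k N : ℕ) (F : Finset Edg) : Prop :=
  Crs v.1 v.2 k N ↑F ∧ DCrs v.1 v.2 k N (↑(S \ F) : Set Edg)

/-- two separated points -/
theorem two_far {C : ℝ} (hC : 0 < C) (hA : AB C) {S : Finset Edg} {v w : Vtx} {k ρ N K : ℕ}
    (hK : nd v w = K) (hk : 1 ≤ k) (hkρ : k ≤ ρ) (hρN : ρ ≤ N) (hρK : 2 * ρ < K)
    (hv : t3_B v ρ ⊆ S) (hw : t3_B w ρ ⊆ S) :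
    Q S (fun F => TA S v k N F ∧ TA S w k N F) ≤ C ^ 2 * ((k : ℝ) / ρ) ^ (1/2 : ℝ) := by
  have d12 : Disjoint (t3_B v ρ) (t3_B w ρ) := t3_disj hK hρK
  have i12 : Q S (fun F => t3_An (t3_B v ρ) v k ρ F ∧ t3_An (t3_B w ρ) w k ρ F) =
      Q S (t3_An (t3_B v ρ) v k ρ) * Q S (t3_An (t3_B w ρ) w k ρ) :=
    Pr_indep hv hw d12 (fun F _ => t3_loc _ _ _ _ F) (fun F _ => t3_loc _ _ _ _ F)
  have h1 : Q S (fun F => TA S v k N F ∧ TA S w k N F) ≤
      Q S (fun F => t3_An (t3_B v ρ) v k ρ F ∧ t3_An (t3_B w ρ) w k ρ F) :=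
    Q_mono (fun F _ hF => ⟨near_k hρN hF.1, near_k hρN hF.2⟩)
  rw [i12] at h1
  have hkρ0 : 0 ≤ (k : ℝ) / ρ := by positivity
  have e : ((k : ℝ) / ρ) ^ (1/2 : ℝ) = ((k : ℝ) / ρ) ^ (1/4 : ℝ) * ((k : ℝ) / ρ) ^ (1/4 : ℝ) := by
    rw [← Real.rpow_add_of_nonneg hkρ0 (by norm_num) (by norm_num)]
    norm_num
  refine h1.trans ?_
  have g1 := t3_pr hA hv v hk hkρ
  have g2 := t3_pr hA hw w hk hkρ
  calc Q S (t3_An (t3_B v ρ) v k ρ) * Q S (t3_An (t3_B w ρ) w k ρ)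
      ≤ (C * ((k : ℝ) / ρ) ^ (1/4 : ℝ)) * (C * ((k : ℝ) / ρ) ^ (1/4 : ℝ)) :=
        mul_le_mul g1 g2 (Q_nonneg _ _) (by positivity)
    _ = C ^ 2 * ((k : ℝ) / ρ) ^ (1/2 : ℝ) := by rw [e]; ring

/-- two points at moderate distance -/
theorem two_mid {C : ℝ} (hC : 0 < C) (hA : AB C) {S : Finset Edg} {v w : Vtx} {k ρ N K : ℕ}
    (hK : nd v w = K) (hk : 1 ≤ k) (hkρ : k ≤ ρ) (hKN : 2 * K ≤ N) (hρK : 2 * ρ < K)
    (hv : t3_B v ρ ⊆ S) (hw : t3_B w ρ ⊆ S) :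
    Q S (fun F => TA S v k N F ∧ TA S w k N F) ≤
      C ^ 3 * (((k : ℝ) / ρ) ^ (1/2 : ℝ) * (((2 * K : ℕ) : ℝ) / N) ^ (1/4 : ℝ)) := by
  have hρN : ρ ≤ N := by omega
  set X1 := t3_B v ρ with hX1
  set X2 := t3_B w ρ with hX2
  set X3 := S \ t3_B v (((2 * K : ℕ) : ℤ) - 1) with hX3
  have s3 : X3 ⊆ S := Finset.sdiff_subset
  have d12 : Disjoint X1 X2 := t3_disj hK hρK
  have d13 : Disjoint X1 X3 :=
    Finset.disjoint_of_subset_left (t3_sub' hρK) Finset.disjoint_sdiff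
  have d23 : Disjoint X2 X3 :=
    Finset.disjoint_of_subset_left (t3_sub hK hρK) Finset.disjoint_sdiff
  have i23 : Q S (fun F => t3_An X2 w k ρ F ∧ t3_An X3 v (2 * K) N F) =
      Q S (t3_An X2 w k ρ) * Q S (t3_An X3 v (2 * K) N) :=
    Pr_indep hw s3 d23 (fun F _ => t3_loc _ _ _ _ F) (fun F _ => t3_loc _ _ _ _ F)
  have i1 : Q S (fun F => t3_An X1 v k ρ F ∧
      (t3_An X2 w k ρ F ∧ t3_An X3 v (2 * K) N F)) =
      Q S (t3_An X1 v k ρ) *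
        Q S (fun F => t3_An X2 w k ρ F ∧ t3_An X3 v (2 * K) N F) := by
    apply Pr_indep hv (Finset.union_subset hw s3) (Finset.disjoint_union_right.2 ⟨d12, d13⟩)
      (fun F _ => t3_loc _ _ _ _ F)
    intro F _
    rw [t3_loc' (X := X2) Finset.subset_union_left (Y := X2 ∪ X3),
      t3_loc' (X := X3) Finset.subset_union_right (Y := X2 ∪ X3)]
  have h1 : Q S (fun F => TA S v k N F ∧ TA S w k N F) ≤ Q S (fun F => t3_An X1 v k ρ F ∧
      (t3_An X2 w k ρ F ∧ t3_An X3 v (2 * K) N F)) :=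
    Q_mono (fun F hF hF2 => ⟨near_k hρN hF2.1, near_k hρN hF2.2,
      far_k (by omega) (by omega) hF hF2.1⟩)
  rw [i1, i23] at h1
  have hkρ0 : 0 ≤ (k : ℝ) / ρ := by positivity
  have e : ((k : ℝ) / ρ) ^ (1/2 : ℝ) = ((k : ℝ) / ρ) ^ (1/4 : ℝ) * ((k : ℝ) / ρ) ^ (1/4 : ℝ) := by
    rw [← Real.rpow_add_of_nonneg hkρ0 (by norm_num) (by norm_num)]
    norm_num
  refine h1.trans ?_
  have g1 := t3_pr hA hv v hk hkρ
  have g2 := t3_pr hA hw w hk hkρ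
  have g3 := t3_pr hA s3 v (r := 2 * K) (R := N) (by omega) hKN
  calc Q S (t3_An X1 v k ρ) * (Q S (t3_An X2 w k ρ) * Q S (t3_An X3 v (2 * K) N))
      ≤ (C * ((k : ℝ) / ρ) ^ (1/4 : ℝ)) * ((C * ((k : ℝ) / ρ) ^ (1/4 : ℝ)) *
          (C * (((2 * K : ℕ) : ℝ) / N) ^ (1/4 : ℝ))) := by
        apply mul_le_mul g1 (mul_le_mul g2 g3 (Q_nonneg _ _) (by positivity))
          (mul_nonneg (Q_nonneg _ _) (Q_nonneg _ _)) (by positivity)
    _ = _ := by rw [e]; ring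


theorem floor_diff {a b δ : ℝ} (hδ : 0 < δ) :
    |((⌊a / δ⌋ - ⌊b / δ⌋ : ℤ) : ℝ) - (a - b) / δ| ≤ 1 := by
  have a1 := Int.floor_le (a / δ)
  have a2 := Int.lt_floor_add_one (a / δ)
  have b1 := Int.floor_le (b / δ)
  have b2 := Int.lt_floor_add_one (b / δ)
  push_cast
  rw [sub_div, abs_le]
  constructor <;> linarith

/-- the vertex next to `z` -/
noncomputable def cv (δ : ℝ) (z : ℂ) : Vtx := (⌊z.re / δ⌋, ⌊z.im / δ⌋)

theorem nd_bounds {z w : ℂ} {δ : ℝ} (hδ : 0 < δ) : ∃ K : ℕ, nd (cv δ z) (cv δ w) = K ∧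
    (K : ℝ) ≤ dist z w / δ + 1 ∧ dist z w / (2 * δ) ≤ K + 1 := by
  have hk0 : 0 ≤ nd (cv δ z) (cv δ w) := le_max_of_le_left (abs_nonneg _)
  obtain ⟨K, hK⟩ := Int.eq_ofNat_of_zero_le hk0
  refine ⟨K, hK, ?_, ?_⟩
  · have h1 := floor_diff (a := z.re) (b := w.re) hδ
    have h2 := floor_diff (a := z.im) (b := w.im) hδ
    have e : ((nd (cv δ z) (cv δ w) : ℤ) : ℝ) = (K : ℝ) := by rw [hK]; rfl
    rw [← e]
    unfold nd cv
    simp only
    rw [Int.cast_max, Int.cast_abs, Int.cast_abs]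
    have g1 : |(z.re - w.re) / δ| ≤ dist z w / δ := by
      rw [abs_div, abs_of_pos hδ, Complex.dist_eq]
      gcongr
      have := Complex.abs_re_le_norm (z - w)
      rwa [Complex.sub_re] at this
    have g2 : |(z.im - w.im) / δ| ≤ dist z w / δ := by
      rw [abs_div, abs_of_pos hδ, Complex.dist_eq]
      gcongr
      have := Complex.abs_im_le_norm (z - w)
      rwa [Complex.sub_im] at this
    rw [abs_le] at h1 h2 g1 g2
    apply max_le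
    · rw [abs_le]; constructor <;> linarith
    · rw [abs_le]; constructor <;> linarith
  · have h1 := floor_diff (a := z.re) (b := w.re) hδ
    have h2 := floor_diff (a := z.im) (b := w.im) hδ
    have e : ((nd (cv δ z) (cv δ w) : ℤ) : ℝ) = (K : ℝ) := by rw [hK]; rfl
    rw [← e]
    unfold nd cv
    simp only
    rw [Int.cast_max, Int.cast_abs, Int.cast_abs]
    have m1 := le_max_left |((⌊z.re / δ⌋ - ⌊w.re / δ⌋ : ℤ) : ℝ)|
      |((⌊z.im / δ⌋ - ⌊w.im / δ⌋ : ℤ) : ℝ)|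
    have m2 := le_max_right |((⌊z.re / δ⌋ - ⌊w.re / δ⌋ : ℤ) : ℝ)|
      |((⌊z.im / δ⌋ - ⌊w.im / δ⌋ : ℤ) : ℝ)|
    have g1 : |(z.re - w.re) / δ| ≤ |((⌊z.re / δ⌋ - ⌊w.re / δ⌋ : ℤ) : ℝ)| + 1 := by
      have := abs_sub_abs_le_abs_sub ((z.re - w.re) / δ) ((⌊z.re / δ⌋ - ⌊w.re / δ⌋ : ℤ) : ℝ)
      rw [abs_sub_comm] at this
      linarith
    have g2 : |(z.im - w.im) / δ| ≤ |((⌊z.im / δ⌋ - ⌊w.im / δ⌋ : ℤ) : ℝ)| + 1 := by
      have := abs_sub_abs_le_abs_sub ((z.im - w.im) / δ) ((⌊z.im / δ⌋ - ⌊w.im / δ⌋ : ℤ) : ℝ)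
      rw [abs_sub_comm] at this
      linarith
    have g3 : dist z w / δ ≤ |(z.re - w.re) / δ| + |(z.im - w.im) / δ| := by
      rw [abs_div, abs_div, abs_of_pos hδ, ← add_div, Complex.dist_eq]
      gcongr
      have := Complex.norm_le_abs_re_add_abs_im (z - w)
      rwa [Complex.sub_re, Complex.sub_im] at this
    have g4 : dist z w / (2 * δ) = dist z w / δ / 2 := by
      field_simp
    rw [g4]
    linarith

theorem box_sub (R : Rect) {z : ℂ} {s0 δ : ℝ} (hδ : 0 < δ) (hd : 64 * δ ≤ s0)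
    (hball : Metric.ball z s0 ⊆ R.D) {ρ : ℕ} (hρ : (ρ : ℝ) ≤ s0 / (4 * δ)) :
    t3_B (cv δ z) ρ ⊆ R.edges δ := by
  have hbox : ∀ v : Vtx, |v.1 - ⌊z.re / δ⌋| ≤ (ρ : ℤ) → |v.2 - ⌊z.im / δ⌋| ≤ (ρ : ℤ) →
      (R.x0 δ ≤ v.1 ∧ v.1 ≤ R.x1 δ) ∧ (0 ≤ v.2 ∧ v.2 ≤ R.y1 δ) := by
    intro v h1 h2
    refine R.mem_verts'.1 (t9_box R hδ hd hball (m := (ρ : ℤ)) ?_ h1 h2)
    push_cast
    linarith
  rw [R.edges_eq]
  unfold t3_B cv
  refine RE_subset ?_ ?_ ?_ ?_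
  · exact (hbox (⌊z.re / δ⌋ - ρ, ⌊z.im / δ⌋) (by simp only; rw [abs_le]; omega)
      (by simp only; rw [abs_le]; omega)).1.1
  · exact (hbox (⌊z.re / δ⌋ + ρ, ⌊z.im / δ⌋) (by simp only; rw [abs_le]; omega)
      (by simp only; rw [abs_le]; omega)).1.2
  · exact (hbox (⌊z.re / δ⌋, ⌊z.im / δ⌋ - ρ) (by simp only; rw [abs_le]; omega)
      (by simp only; rw [abs_le]; omega)).2.1
  · exact (hbox (⌊z.re / δ⌋, ⌊z.im / δ⌋ + ρ) (by simp only; rw [abs_le]; omega)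
      (by simp only; rw [abs_le]; omega)).2.2

/-- the numerical estimate for moderate distances -/
theorem num_mid {k ρ K N : ℕ} {r δ s0 D : ℝ} (hδ : 0 < δ) (hr : 0 < r) (hs0 : 0 < s0) (hD : 0 < D)
    (h1 : (k : ℝ) ≤ 6 * (r / δ)) (h2 : (K : ℝ) ≤ 4 * ρ) (h3 : s0 / (8 * δ) ≤ N)
    (h4 : D / (4 * δ) ≤ K) :
    ((k : ℝ) / ρ) ^ (1/2 : ℝ) * (((2 * K : ℕ) : ℝ) / N) ^ (1/4 : ℝ) ≤
      (24 ^ (1/2 : ℝ) * (16 / s0) ^ (1/4 : ℝ) * 4 ^ (1/4 : ℝ)) * (r ^ (1/2 : ℝ) * D ^ (-(1/4) : ℝ)) := by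
  have hK0 : (0 : ℝ) < K := lt_of_lt_of_le (by positivity) h4
  have hρ0 : (0 : ℝ) < ρ := by linarith
  have hN0 : (0 : ℝ) < N := lt_of_lt_of_le (by positivity) h3
  obtain ⟨x, hx⟩ : ∃ x : ℝ, x = δ * K := ⟨_, rfl⟩
  have hx0 : 0 < x := by rw [hx]; positivity
  have e1 : ((k : ℝ) / ρ) ≤ 24 * r / x := by
    rw [div_le_div_iff₀ hρ0 hx0, hx]
    have h5 : (k : ℝ) * δ ≤ 6 * r := by
      have := mul_le_mul_of_nonneg_right h1 hδ.le
      rwa [mul_assoc, div_mul_cancel₀ _ hδ.ne'] at this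
    calc (k : ℝ) * (δ * K) = (k * δ) * K := by ring
      _ ≤ (6 * r) * (4 * ρ) := mul_le_mul h5 h2 hK0.le (by positivity)
      _ = _ := by ring
  have e2 : (((2 * K : ℕ) : ℝ) / N) ≤ (16 / s0) * x := by
    rw [div_le_iff₀ hN0]
    push_cast
    have h6 : s0 ≤ 8 * δ * N := by
      rw [div_le_iff₀ (by positivity)] at h3
      linarith
    rw [hx]
    calc (2 : ℝ) * K = (16 / s0) * (δ * K) * (s0 / (8 * δ)) := by field_simp; norm_num
      _ ≤ _ := by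
        apply mul_le_mul_of_nonneg_left h3 (by positivity)
  have e3 : D / 4 ≤ x := by
    rw [hx]
    rw [div_le_iff₀ (by positivity)] at h4
    linarith
  have p1 : ((k : ℝ) / ρ) ^ (1/2 : ℝ) ≤ 24 ^ (1/2 : ℝ) * r ^ (1/2 : ℝ) * x ^ (-(1/2) : ℝ) := by
    refine (Real.rpow_le_rpow (by positivity) e1 (by norm_num)).trans (le_of_eq ?_)
    rw [Real.div_rpow (by positivity) hx0.le, Real.mul_rpow (by norm_num) hr.le,
      Real.rpow_neg hx0.le]
    rfl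
  have p2 : (((2 * K : ℕ) : ℝ) / N) ^ (1/4 : ℝ) ≤ (16 / s0) ^ (1/4 : ℝ) * x ^ (1/4 : ℝ) := by
    refine (Real.rpow_le_rpow (by positivity) e2 (by norm_num)).trans (le_of_eq ?_)
    rw [Real.mul_rpow (by positivity) hx0.le]
  have p3 : x ^ (-(1/2) : ℝ) * x ^ (1/4 : ℝ) ≤ 4 ^ (1/4 : ℝ) * D ^ (-(1/4) : ℝ) := by
    rw [← Real.rpow_add hx0]
    have : x ^ (-(1/2) + 1/4 : ℝ) ≤ (D / 4) ^ (-(1/2) + 1/4 : ℝ) :=
      Real.rpow_le_rpow_of_nonpos (by positivity) e3 (by norm_num)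
    refine this.trans (le_of_eq ?_)
    rw [Real.div_rpow hD.le (by norm_num), show (-(1/2) + 1/4 : ℝ) = -(1/4) by norm_num,
      Real.rpow_neg (by norm_num : (0:ℝ) ≤ 4), div_inv_eq_mul, mul_comm]
  calc ((k : ℝ) / ρ) ^ (1/2 : ℝ) * (((2 * K : ℕ) : ℝ) / N) ^ (1/4 : ℝ)
      ≤ (24 ^ (1/2 : ℝ) * r ^ (1/2 : ℝ) * x ^ (-(1/2) : ℝ)) *
          ((16 / s0) ^ (1/4 : ℝ) * x ^ (1/4 : ℝ)) :=
        mul_le_mul p1 p2 (by positivity) (by positivity)
    _ = (24 ^ (1/2 : ℝ) * (16 / s0) ^ (1/4 : ℝ) * r ^ (1/2 : ℝ)) *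
          (x ^ (-(1/2) : ℝ) * x ^ (1/4 : ℝ)) := by ring
    _ ≤ (24 ^ (1/2 : ℝ) * (16 / s0) ^ (1/4 : ℝ) * r ^ (1/2 : ℝ)) *
          (4 ^ (1/4 : ℝ) * D ^ (-(1/4) : ℝ)) := by
        apply mul_le_mul_of_nonneg_left p3 (by positivity)
    _ = _ := by ring

/-- mesh-level two-point bound -/
theorem mesh2 {C : ℝ} (hC : 0 < C) (hA : AB C) {s0 M : ℝ} (hs0 : 0 < s0) (hM : 0 < M) :
    ∃ C0 : ℝ, 0 < C0 ∧ ∀ (R : Rect) (z w : ℂ) (r δ : ℝ), 0 < δ → δ ≤ r →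
      Metric.ball z s0 ⊆ R.D → Metric.ball w s0 ⊆ R.D → dist z w ≤ M → 16384 * r ≤ s0 →
      Q (R.edges δ) (fun F => (R.path δ F ∩ Metric.ball z r).Nonempty ∧
        (R.path δ F ∩ Metric.ball w r).Nonempty) ≤
        C0 * (r ^ (1/2 : ℝ) * (max (dist z w) r) ^ (-(1/4) : ℝ)) := by
  refine ⟨C ^ 3 * (24 ^ (1/2 : ℝ) * (16 / s0) ^ (1/4 : ℝ) * 4 ^ (1/4 : ℝ)) +
    C ^ 2 * ((12288 / s0) ^ (1/2 : ℝ) * (max M s0) ^ (1/4 : ℝ)) +
    C * ((48 / s0) ^ (1/4 : ℝ) * 128 ^ (1/4 : ℝ)), by positivity, ?_⟩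
  intro R z w r δ hδ hδr hbz hbw hzw hrs
  have hr : 0 < r := hδ.trans_le hδr
  have hM' : 0 < max M s0 := lt_max_of_lt_left hM
  set S := R.edges δ with hS
  set v := cv δ z with hv
  set u := cv δ w with hu
  set k : ℕ := ⌈r / δ⌉₊ + 4 with hk
  set N : ℕ := ⌊s0 / (4 * δ)⌋₊ with hN
  have hq1 : 1 ≤ r / δ := by rw [le_div_iff₀ hδ]; linarith
  have hqs : 16384 * (r / δ) ≤ s0 / δ := by
    rw [← mul_div_assoc]
    gcongr
  have hk6 : (k : ℝ) ≤ 6 * (r / δ) := by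
    have h3 : (⌈r / δ⌉₊ : ℝ) < r / δ + 1 := Nat.ceil_lt_add_one (by positivity)
    rw [hk]
    push_cast
    linarith
  have e4 : s0 / (4 * δ) = s0 / δ / 4 := by field_simp
  have e8 : s0 / (8 * δ) = s0 / δ / 8 := by field_simp
  have hNle : (N : ℝ) ≤ s0 / (4 * δ) := Nat.floor_le (by positivity)
  have hNge : s0 / (8 * δ) ≤ N := by
    have : s0 / (4 * δ) < N + 1 := Nat.lt_floor_add_one _
    rw [e8]
    rw [e4] at this
    linarith
  have hred : Q S (fun F => (R.path δ F ∩ Metric.ball z r).Nonempty ∧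
        (R.path δ F ∩ Metric.ball w r).Nonempty) ≤ Q S (fun F => TA S v k N F ∧ TA S u k N F) :=
    Q_mono (fun F _ hF => ⟨t9_det R hδ hδr (by linarith) hbz hF.1,
      t9_det R hδ hδr (by linarith) hbw hF.2⟩)
  obtain ⟨K, hK, hK1, hK2⟩ := nd_bounds (z := z) (w := w) hδ
  have eD : dist z w / (2 * δ) = dist z w / δ / 2 := by field_simp
  rw [eD] at hK2
  have hk1 : 1 ≤ k := by omega
  have t1 : 0 < C ^ 3 * (24 ^ (1/2 : ℝ) * (16 / s0) ^ (1/4 : ℝ) * 4 ^ (1/4 : ℝ)) := by positivity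
  have t2 : 0 < C ^ 2 * ((12288 / s0) ^ (1/2 : ℝ) * (max M s0) ^ (1/4 : ℝ)) := by positivity
  have t3 : 0 < C * ((48 / s0) ^ (1/4 : ℝ) * 128 ^ (1/4 : ℝ)) := by positivity
  have hmx : 0 < max (dist z w) r := lt_max_of_lt_right hr
  have t4 : 0 < r ^ (1/2 : ℝ) * (max (dist z w) r) ^ (-(1/4) : ℝ) := by positivity
  refine hred.trans ?_
  rcases lt_or_ge (dist z w) (128 * r) with hc | hc
  · -- near: one point
    have h1 : Q S (fun F => TA S v k N F ∧ TA S u k N F) ≤ Q S (TA S v k N) :=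
      Q_mono (fun F _ hF => hF.1)
    have hkN : k ≤ N := by
      have : (k : ℝ) ≤ N := by
        rw [e8] at hNge
        linarith
      exact_mod_cast this
    have h2 : Q S (TA S v k N) ≤ C * ((k : ℝ) / N) ^ (1/4 : ℝ) := hA k N hk1 hkN v.1 v.2 S
    have hN0 : (0:ℝ) < N := lt_of_lt_of_le (by positivity) hNge
    have h3 : ((k : ℝ) / N) ≤ (48 / s0) * r := by
      rw [div_le_iff₀ hN0]
      calc (k : ℝ) ≤ 6 * (r / δ) := hk6
        _ = (48 / s0) * r * (s0 / (8 * δ)) := by field_simp; norm_num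
        _ ≤ _ := mul_le_mul_of_nonneg_left hNge (by positivity)
    have h4 : ((k : ℝ) / N) ^ (1/4 : ℝ) ≤ (48 / s0) ^ (1/4 : ℝ) * r ^ (1/4 : ℝ) := by
      refine (Real.rpow_le_rpow (by positivity) h3 (by norm_num)).trans (le_of_eq ?_)
      rw [Real.mul_rpow (by positivity) hr.le]
    have h5 : r ^ (1/4 : ℝ) ≤ 128 ^ (1/4 : ℝ) *
        (r ^ (1/2 : ℝ) * (max (dist z w) r) ^ (-(1/4) : ℝ)) := by
      have h6 : max (dist z w) r ≤ 128 * r := max_le hc.le (by linarith)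
      have h7 : (128 * r) ^ (-(1/4) : ℝ) ≤ (max (dist z w) r) ^ (-(1/4) : ℝ) :=
        Real.rpow_le_rpow_of_nonpos hmx h6 (by norm_num)
      rw [Real.mul_rpow (by norm_num) hr.le] at h7
      calc r ^ (1/4 : ℝ) = 128 ^ (1/4 : ℝ) * (r ^ (1/2 : ℝ) *
            (128 ^ (-(1/4) : ℝ) * r ^ (-(1/4) : ℝ))) := by
            rw [show (128:ℝ) ^ (1/4 : ℝ) * (r ^ (1/2 : ℝ) * (128 ^ (-(1/4) : ℝ) *
              r ^ (-(1/4) : ℝ))) = ((128:ℝ) ^ (1/4 : ℝ) * 128 ^ (-(1/4) : ℝ)) *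
              (r ^ (1/2 : ℝ) * r ^ (-(1/4) : ℝ)) by ring, ← Real.rpow_add (by norm_num),
              ← Real.rpow_add hr]
            norm_num
        _ ≤ _ := by gcongr
    calc Q S (fun F => TA S v k N F ∧ TA S u k N F) ≤ C * ((k : ℝ) / N) ^ (1/4 : ℝ) := h1.trans h2
      _ ≤ C * ((48 / s0) ^ (1/4 : ℝ) * (128 ^ (1/4 : ℝ) *
          (r ^ (1/2 : ℝ) * (max (dist z w) r) ^ (-(1/4) : ℝ)))) := by
          gcongr
          exact h4.trans (by gcongr)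
      _ = (C * ((48 / s0) ^ (1/4 : ℝ) * 128 ^ (1/4 : ℝ))) *
          (r ^ (1/2 : ℝ) * (max (dist z w) r) ^ (-(1/4) : ℝ)) := by ring
      _ ≤ _ := by
          apply mul_le_mul_of_nonneg_right _ t4.le
          linarith
  · have hDδ : 128 * (r / δ) ≤ dist z w / δ := by
      rw [← mul_div_assoc]
      gcongr
    have hKge : dist z w / (4 * δ) ≤ K := by
      have : dist z w / (4 * δ) = dist z w / δ / 4 := by field_simp
      rw [this]
      linarith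
    have hmaxD : max (dist z w) r = dist z w := max_eq_left (by linarith)
    have hD0 : 0 < dist z w := by linarith
    rcases le_or_gt (64 * dist z w) s0 with hd | hd
    · -- moderate distance
      have hsδ : 64 * (dist z w / δ) ≤ s0 / δ := by
        rw [← mul_div_assoc]
        gcongr
      have e5 : dist z w / (4 * δ) = dist z w / δ / 4 := by field_simp
      have hKge' := hKge
      rw [e5] at hKge'
      have hK32 : (32 : ℝ) ≤ K := by linarith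
      have hK3 : 32 ≤ K := by exact_mod_cast hK32
      obtain ⟨ρ, hρ1, hρ2⟩ : ∃ ρ : ℕ, 2 * ρ < K ∧ K ≤ 4 * ρ := ⟨(K - 1) / 2, by omega, by omega⟩
      have hρ2' : (K : ℝ) ≤ 4 * ρ := by exact_mod_cast hρ2
      have hρ1' : 2 * (ρ : ℝ) < K := by exact_mod_cast hρ1
      have hkρ : k ≤ ρ := by
        have : (k : ℝ) ≤ ρ := by linarith
        exact_mod_cast this
      have h2K : 2 * K ≤ N := by
        have : 2 * (K : ℝ) ≤ N := by
          rw [e8] at hNge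
          linarith
        exact_mod_cast this
      have hρs : (ρ : ℝ) ≤ s0 / (4 * δ) := by
        rw [e4]
        linarith
      have hb1 : t3_B v ρ ⊆ S := box_sub R hδ (by linarith) hbz hρs
      have hb2 : t3_B u ρ ⊆ S := box_sub R hδ (by linarith) hbw hρs
      have h1 := two_mid hC hA hK hk1 hkρ h2K hρ1 hb1 hb2
      have h2 := num_mid hδ hr hs0 hD0 hk6 hρ2' hNge hKge
      rw [hmaxD]
      rw [hmaxD] at t4
      calc Q S (fun F => TA S v k N F ∧ TA S u k N F) ≤ _ := h1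
        _ ≤ C ^ 3 * ((24 ^ (1/2 : ℝ) * (16 / s0) ^ (1/4 : ℝ) * 4 ^ (1/4 : ℝ)) *
            (r ^ (1/2 : ℝ) * (dist z w) ^ (-(1/4) : ℝ))) :=
            mul_le_mul_of_nonneg_left h2 (by positivity)
        _ = (C ^ 3 * (24 ^ (1/2 : ℝ) * (16 / s0) ^ (1/4 : ℝ) * 4 ^ (1/4 : ℝ))) *
            (r ^ (1/2 : ℝ) * (dist z w) ^ (-(1/4) : ℝ)) := by ring
        _ ≤ _ := by
            apply mul_le_mul_of_nonneg_right _ t4.le
            linarith
    · -- large distance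
      have e1024 : s0 / (1024 * δ) = s0 / δ / 1024 := by field_simp
      have hKs : s0 / δ / 256 < K := by
        have h3 : s0 / δ / 64 < dist z w / δ := by
          rw [div_lt_iff₀ (by norm_num), div_mul_eq_mul_div]
          gcongr
          linarith
        have e5 : dist z w / (4 * δ) = dist z w / δ / 4 := by field_simp
        rw [e5] at hKge
        linarith
      obtain ⟨ρ, hρ⟩ : ∃ ρ : ℕ, ρ = ⌊s0 / (1024 * δ)⌋₊ := ⟨_, rfl⟩
      have hρle : (ρ : ℝ) ≤ s0 / δ / 1024 := by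
        rw [hρ, ← e1024]
        exact Nat.floor_le (by positivity)
      have hρge : s0 / δ / 2048 ≤ ρ := by
        have : s0 / (1024 * δ) < ρ + 1 := by
          rw [hρ]
          exact Nat.lt_floor_add_one _
        rw [e1024] at this
        linarith
      have hkρ : k ≤ ρ := by
        have : (k : ℝ) ≤ ρ := by linarith
        exact_mod_cast this
      have hρN : ρ ≤ N := by
        have : (ρ : ℝ) ≤ N := by
          rw [e8] at hNge
          linarith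
        exact_mod_cast this
      have hρK : 2 * ρ < K := by
        have : 2 * (ρ : ℝ) < K := by linarith
        exact_mod_cast this
      have hρs : (ρ : ℝ) ≤ s0 / (4 * δ) := by
        rw [e4]
        linarith
      have hb1 : t3_B v ρ ⊆ S := box_sub R hδ (by linarith) hbz hρs
      have hb2 : t3_B u ρ ⊆ S := box_sub R hδ (by linarith) hbw hρs
      have h1 := two_far hC hA hK hk1 hkρ hρN hρK hb1 hb2
      have hρ0 : (0:ℝ) < ρ := lt_of_lt_of_le (by positivity) hρge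
      have h3 : ((k : ℝ) / ρ) ≤ (12288 / s0) * r := by
        rw [div_le_iff₀ hρ0]
        calc (k : ℝ) ≤ 6 * (r / δ) := hk6
          _ = (12288 / s0) * r * (s0 / δ / 2048) := by field_simp; norm_num
          _ ≤ _ := mul_le_mul_of_nonneg_left hρge (by positivity)
      have h4 : ((k : ℝ) / ρ) ^ (1/2 : ℝ) ≤ (12288 / s0) ^ (1/2 : ℝ) * r ^ (1/2 : ℝ) := by
        refine (Real.rpow_le_rpow (by positivity) h3 (by norm_num)).trans (le_of_eq ?_)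
        rw [Real.mul_rpow (by positivity) hr.le]
      have h5 : 1 ≤ (max M s0) ^ (1/4 : ℝ) * (max (dist z w) r) ^ (-(1/4) : ℝ) := by
        have h6 : max (dist z w) r ≤ max M s0 := max_le (hzw.trans (le_max_left _ _))
          (le_trans (by linarith) (le_max_right _ _))
        have h7 : (max M s0) ^ (-(1/4) : ℝ) ≤ (max (dist z w) r) ^ (-(1/4) : ℝ) :=
          Real.rpow_le_rpow_of_nonpos hmx h6 (by norm_num)
        calc (1:ℝ) = (max M s0) ^ (1/4 : ℝ) * (max M s0) ^ (-(1/4) : ℝ) := by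
              rw [← Real.rpow_add hM']
              norm_num
          _ ≤ _ := by gcongr
      calc Q S (fun F => TA S v k N F ∧ TA S u k N F) ≤ C ^ 2 * ((k : ℝ) / ρ) ^ (1/2 : ℝ) := h1
        _ ≤ C ^ 2 * (((12288 / s0) ^ (1/2 : ℝ) * r ^ (1/2 : ℝ)) * 1) := by
            rw [mul_one]
            gcongr
        _ ≤ C ^ 2 * (((12288 / s0) ^ (1/2 : ℝ) * r ^ (1/2 : ℝ)) *
            ((max M s0) ^ (1/4 : ℝ) * (max (dist z w) r) ^ (-(1/4) : ℝ))) := by gcongr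
        _ = (C ^ 2 * ((12288 / s0) ^ (1/2 : ℝ) * (max M s0) ^ (1/4 : ℝ))) *
            (r ^ (1/2 : ℝ) * (max (dist z w) r) ^ (-(1/4) : ℝ)) := by ring
        _ ≤ _ := by
            apply mul_le_mul_of_nonneg_right _ t4.le
            linarith

end Pool.Agent.TH966.HD
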