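import Pool.Agent.TH966.HD.Abs
import Pool.Agent.TH966.HD.TwoPt

/-!
Two-point upper bound for the weak limits of the law of the trace.
-/

set_option autoImplicit false

namespace Pool.Agent.TH966.HD

open H974 H973 H12S H934E H934F Finset MeasureTheory TopologicalSpace Filter Topology

theorem lim_pair (R : Rect) {δ : ℕ → ℝ} (hδ : ∀ i, 0 < δ i) (hlim : Tendsto δ atTop (𝓝 0))
    {μ : ProbabilityMeasure (NonemptyCompacts ℂ)}
    (hμ : Tendsto (fun i => R.law (hδ i)) atTop (𝓝 μ)) {z w : ℂ} {r B : ℝ} (hr : 0 < r)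
    (hB : 0 ≤ B)
    (h : ∀ η : ℝ, 0 < η → η ≤ 2 * r →
      Q (R.edges η) (fun F => (R.path η F ∩ Metric.ball z (2 * r)).Nonempty ∧
        (R.path η F ∩ Metric.ball w (2 * r)).Nonempty) ≤ B) :
    (μ : Measure (NonemptyCompacts ℂ)).real
      (Hit (fun K : NonemptyCompacts ℂ => (K : Set ℂ)) z r ∩
        Hit (fun K : NonemptyCompacts ℂ => (K : Set ℂ)) w r) ≤ B := by
  have ho : IsOpen ({K : NonemptyCompacts ℂ | ((K : Set ℂ) ∩ Metric.ball z (2 * r)).Nonempty} ∩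
      {K : NonemptyCompacts ℂ | ((K : Set ℂ) ∩ Metric.ball w (2 * r)).Nonempty}) :=
    (NonemptyCompacts.isOpen_inter_nonempty_of_isOpen Metric.isOpen_ball).inter
      (NonemptyCompacts.isOpen_inter_nonempty_of_isOpen Metric.isOpen_ball)
  have h3 : (μ : Measure (NonemptyCompacts ℂ))
      ({K : NonemptyCompacts ℂ | ((K : Set ℂ) ∩ Metric.ball z (2 * r)).Nonempty} ∩
      {K : NonemptyCompacts ℂ | ((K : Set ℂ) ∩ Metric.ball w (2 * r)).Nonempty}) ≤
      ENNReal.ofReal B := by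
    refine (ProbabilityMeasure.le_liminf_measure_open_of_tendsto hμ ho).trans ?_
    apply Filter.liminf_le_of_frequently_le'
    apply Eventually.frequently
    filter_upwards [hlim.eventually_lt_const (show 0 < 2 * r by positivity)] with i hi
    rw [R.law_apply (hδ i) ho.measurableSet]
    exact ENNReal.ofReal_le_ofReal (h (δ i) (hδ i) hi.le)
  apply ENNReal.toReal_le_of_le_ofReal hB
  refine (measure_mono ?_).trans h3
  rintro K ⟨⟨x, hx1, hx2⟩, ⟨y, hy1, hy2⟩⟩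
  rw [Metric.mem_closedBall] at hx2 hy2
  refine ⟨⟨x, hx1, ?_⟩, ⟨y, hy1, ?_⟩⟩
  · rw [Metric.mem_ball]
    linarith
  · rw [Metric.mem_ball]
    linarith

theorem two_lim {C : ℝ} (hC : 0 < C) (hA : AB C) (R : Rect) (hD : IsOpen R.D) {A : Set ℂ}
    (hAc : IsCompact A) (hAD : A ⊆ R.D) :
    ∃ C1 r1 : ℝ, 0 < C1 ∧ 0 < r1 ∧ ∀ (δ : ℕ → ℝ) (hδ : ∀ i, 0 < δ i), Tendsto δ atTop (𝓝 0) →
      ∀ μ : ProbabilityMeasure (NonemptyCompacts ℂ),
      Tendsto (fun i => R.law (hδ i)) atTop (𝓝 μ) → ∀ z ∈ A, ∀ w ∈ A, ∀ r : ℝ, 0 < r → r ≤ r1 →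
        (μ : Measure (NonemptyCompacts ℂ)).real
          (Hit (fun K : NonemptyCompacts ℂ => (K : Set ℂ)) z r ∩
            Hit (fun K : NonemptyCompacts ℂ => (K : Set ℂ)) w r) ≤
          C1 * r ^ (2 * (1/4) : ℝ) * (max (dist z w) r) ^ (-(1/4) : ℝ) := by
  obtain ⟨s0, hs0, hth⟩ := hAc.exists_thickening_subset_open hD hAD
  have hball : ∀ z ∈ A, Metric.ball z s0 ⊆ R.D := fun z hz =>
    (Metric.ball_subset_thickening hz s0).trans hth
  obtain ⟨M, hM⟩ := Metric.isBounded_iff.mp hAc.isBounded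
  obtain ⟨C0, hC0, h⟩ := mesh2 hC hA hs0 (show 0 < max M 1 by positivity)
  refine ⟨C0 * 2 ^ (1/2 : ℝ), s0 / 32768, by positivity, by positivity, ?_⟩
  intro δ hδ hlim μ hμ z hz w hw r hr hr1
  have hm0 : 0 < max (dist z w) r := lt_max_of_lt_right hr
  have hm0' : 0 < max (dist z w) (2 * r) := lt_max_of_lt_right (by positivity)
  have key := lim_pair R hδ hlim hμ (z := z) (w := w) hr
    (B := C0 * ((2 * r) ^ (1/2 : ℝ) * (max (dist z w) (2 * r)) ^ (-(1/4) : ℝ))) (by positivity)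
    (fun η hη hη2 => h R z w (2 * r) η hη hη2 (hball z hz) (hball w hw)
      ((hM hz hw).trans (le_max_left _ _)) (by linarith))
  refine key.trans ?_
  have e1 : (max (dist z w) (2 * r)) ^ (-(1/4) : ℝ) ≤ (max (dist z w) r) ^ (-(1/4) : ℝ) :=
    Real.rpow_le_rpow_of_nonpos hm0 (max_le_max le_rfl (by linarith)) (by norm_num)
  rw [Real.mul_rpow (by norm_num) hr.le, show (2 * (1/4) : ℝ) = 1/2 by norm_num]
  calc C0 * (2 ^ (1/2 : ℝ) * r ^ (1/2 : ℝ) * (max (dist z w) (2 * r)) ^ (-(1/4) : ℝ))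
      ≤ C0 * (2 ^ (1/2 : ℝ) * r ^ (1/2 : ℝ) * (max (dist z w) r) ^ (-(1/4) : ℝ)) := by gcongr
    _ = _ := by ring

end Pool.Agent.TH966.HD
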