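import Pool.Agent.TH966.HD.Abs
import Pool.Agent.H934R3.SL.SL
import Pool.Agent.H985R3.TA.STA
import Pool.Agent.H934R4.GL.Asm

/-!
One-point lower bound on compact subsets, from the Green function.
-/

set_option autoImplicit false

namespace Pool.Agent.TH966.HD

open MeasureTheory TopologicalSpace Filter Topology H934E

theorem mem_D {R : Rect} {z : ℂ} : z ∈ R.D ↔ -R.A < z.re ∧ z.re < R.B ∧ 0 < z.im ∧ z.im < R.H := by
  unfold Rect.D
  simp only [Set.mem_ofPred_eq]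

theorem rd_cont (R : Rect) : Continuous R.rd := by
  unfold Rect.rd Rect.rx Rect.ry
  exact ((Complex.continuous_re.add continuous_const).min
    (continuous_const.sub Complex.continuous_re)).min
    (Complex.continuous_im.min (continuous_const.sub Complex.continuous_im))

theorem rd_pos (R : Rect) {z : ℂ} (hz : z ∈ R.D) : 0 < R.rd z ∧ 0 < R.rx z ∧ 0 < R.ry z := by
  rw [mem_D] at hz
  have h1 : 0 < R.rx z := by
    unfold Rect.rx
    exact lt_min (by linarith) (by linarith)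
  have h2 : 0 < R.ry z := by
    unfold Rect.ry
    exact lt_min (by linarith) (by linarith)
  exact ⟨lt_min h1 h2, h1, h2⟩

theorem den_pos (R : Rect) {z : ℂ} (hz : z ∈ R.D) :
    0 < (‖z - R.pa‖ * (‖z - R.pa‖ + R.ra)) * (‖z‖ * (‖z‖ + R.rb)) := by
  have hz' := hz
  rw [mem_D] at hz
  have h1 : 0 < ‖z - R.pa‖ := by
    rw [norm_pos_iff, sub_ne_zero]
    rintro rfl
    have : R.pa.im = R.H := rfl
    linarith [hz.2.2.2]
  have h2 : 0 < ‖z‖ := by
    rw [norm_pos_iff]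
    rintro rfl
    simp at hz
  have h3 : 0 < R.rb := lt_min R.hA R.hB
  have h4 : 0 < R.ra := by
    unfold Rect.ra
    have := R.ht1
    have := R.ht2
    exact lt_min (by linarith) (by linarith)
  positivity

theorem Th_cont (R : Rect) : ContinuousOn R.Th R.D := by
  unfold Rect.Th
  apply ContinuousOn.div
  · have h1 : Continuous R.rx := by
      unfold Rect.rx
      exact (Complex.continuous_re.add continuous_const).min
        (continuous_const.sub Complex.continuous_re)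
    have h2 : Continuous R.ry := by
      unfold Rect.ry
      exact Complex.continuous_im.min (continuous_const.sub Complex.continuous_im)
    exact ((h1.mul h2).mul continuous_const).continuousOn
  · apply Continuous.continuousOn
    fun_prop
  · intro z hz
    exact (den_pos R hz).ne'

theorem Th_pos (R : Rect) {z : ℂ} (hz : z ∈ R.D) : 0 < R.Th z := by
  obtain ⟨-, h1, h2⟩ := rd_pos R hz
  have h3 := den_pos R hz
  have h4 : 0 < R.H := by
    rw [mem_D] at hz
    linarith [hz.2.2.1, hz.2.2.2]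
  unfold Rect.Th
  positivity

theorem one_lim (R : Rect) {A : Set ℂ} (hAc : IsCompact A) (hAD : A ⊆ R.D) :
    ∃ c1 r1 : ℝ, 0 < c1 ∧ 0 < r1 ∧ ∀ (δ : ℕ → ℝ) (hδ : ∀ i, 0 < δ i), Tendsto δ atTop (𝓝 0) →
      ∀ μ : ProbabilityMeasure (NonemptyCompacts ℂ),
      Tendsto (fun i => R.law (hδ i)) atTop (𝓝 μ) → ∀ z ∈ A, ∀ r : ℝ, 0 < r → r ≤ r1 →
        c1 * r ^ ((1:ℝ) / 4) ≤ (μ : Measure (NonemptyCompacts ℂ)).real
          (Hit (fun K : NonemptyCompacts ℂ => (K : Set ℂ)) z r) := by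
  rcases A.eq_empty_or_nonempty with rfl | hne
  · exact ⟨1, 1, one_pos, one_pos, fun δ hδ _ μ _ z hz => absurd hz (Set.notMem_empty z)⟩
  have hH : 0 < R.H := by
    obtain ⟨z, hz⟩ := hne
    have := hAD hz
    rw [mem_D] at this
    linarith [this.2.2.1, this.2.2.2]
  have hAB : 0 < R.A + R.B := add_pos R.hA R.hB
  set k : ℝ := max ((R.A + R.B) / R.H) (R.H / (R.A + R.B)) with hk
  have hk1 : R.A + R.B ≤ k * R.H := by
    rw [← div_le_iff₀ hH]
    exact le_max_left _ _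
  have hk2 : R.H ≤ k * (R.A + R.B) := by
    rw [← div_le_iff₀ hAB]
    exact le_max_right _ _
  obtain ⟨c, _, hc, _, h⟩ := H934G.st_gl H985T.st_A H934SL.st_L k
  obtain ⟨z1, hz1, hmin⟩ := hAc.exists_isMinOn hne (rd_cont R).continuousOn
  obtain ⟨z2, hz2, hmax⟩ := hAc.exists_isMaxOn hne (rd_cont R).continuousOn
  obtain ⟨z3, hz3, hTh⟩ := hAc.exists_isMinOn hne ((Th_cont R).mono hAD)
  have p1 := (rd_pos R (hAD hz1)).1
  have p2 := (rd_pos R (hAD hz2)).1
  have p3 := Th_pos R (hAD hz3)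
  refine ⟨c * ((1 / R.rd z2) ^ ((1 : ℝ) / 4) * R.Th z3 ^ ((1 : ℝ) / 3)), R.rd z1 / 4,
    by positivity, by positivity, ?_⟩
  intro δ hδ hlim μ hμ z hz r hr hr1
  have q1 : R.rd z1 ≤ R.rd z := hmin hz
  have q2 : R.rd z ≤ R.rd z2 := hmax hz
  have q3 : R.Th z3 ≤ R.Th z := hTh hz
  have p := (rd_pos R (hAD hz)).1
  refine le_trans ?_ (h R hk1 hk2 δ hδ hlim μ hμ z r (hAD hz) hr (by linarith)).1
  have e1 : ((1 : ℝ) / R.rd z2) ^ ((1 : ℝ) / 4) * r ^ ((1 : ℝ) / 4) ≤
      (r / R.rd z) ^ ((1 : ℝ) / 4) := by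
    rw [← Real.mul_rpow (by positivity) hr.le]
    apply Real.rpow_le_rpow (by positivity) _ (by norm_num)
    rw [one_div_mul_eq_div]
    gcongr
  calc c * ((1 / R.rd z2) ^ ((1 : ℝ) / 4) * R.Th z3 ^ ((1 : ℝ) / 3)) * r ^ ((1 : ℝ) / 4)
      = c * (((1 / R.rd z2) ^ ((1 : ℝ) / 4) * r ^ ((1 : ℝ) / 4)) *
        R.Th z3 ^ ((1 : ℝ) / 3)) := by ring
    _ ≤ c * ((r / R.rd z) ^ ((1 : ℝ) / 4) * R.Th z ^ ((1 : ℝ) / 3)) := by
      gcongr

end Pool.Agent.TH966.HD
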