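import Pool.Agent.TH966.HD.TwoLim
import Pool.Agent.TH966.HD.One
import Pool.Agent.TH966.HD.Energy
import Pool.Agent.H443R3.BT.Fix

/-!
Capacity lower bound and essential supremum of the dimension, for the limit curves.
-/

set_option autoImplicit false

namespace Pool.Agent.TH966.HD

open MeasureTheory TopologicalSpace Filter Topology Metric Set
open scoped ENNReal NNReal

/-- Trace of the curve. -/
def tr (p : H984N.X) : Set ℂ := Set.range p.1

theorem tr_compact (p : H984N.X) : IsCompact (tr p) := isCompact_range p.1.continuous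

theorem hit_meas0 (z : ℂ) (r : ℝ) :
    MeasurableSet (Hit (fun K : NonemptyCompacts ℂ => (K : Set ℂ)) z r) :=
  (NonemptyCompacts.isClosed_inter_nonempty_of_isClosed Metric.isClosed_closedBall).measurableSet

theorem hit_pre (z : ℂ) (r : ℝ) :
    H443B.rgX ⁻¹' (Hit (fun K : NonemptyCompacts ℂ => (K : Set ℂ)) z r) = Hit tr z r := rfl

theorem hit_meas (z : ℂ) (r : ℝ) : MeasurableSet (Hit tr z r) :=
  H443B.rgX_cont.measurable (hit_meas0 z r)

theorem map_real (μ : ProbabilityMeasure H984N.X) {s : Set (NonemptyCompacts ℂ)}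
    (hs : MeasurableSet s) :
    ((μ.map H443B.rgX_cont.measurable.aemeasurable : ProbabilityMeasure (NonemptyCompacts ℂ)) :
      Measure (NonemptyCompacts ℂ)).real s = (μ : Measure H984N.X).real (H443B.rgX ⁻¹' s) := by
  unfold Measure.real
  rw [ProbabilityMeasure.toMeasure_map, Measure.map_apply H443B.rgX_cont.measurable hs]

theorem X_bounds (R : H984N.Rect) {A : Set ℂ} (hAc : IsCompact A) (hAD : A ⊆ R.D) :
    ∃ c C r0 : ℝ, 0 < c ∧ 0 < C ∧ 0 < r0 ∧ ∀ δ : ℕ → ℝ, (∀ i, 0 < δ i) → Tendsto δ atTop (𝓝 0) →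
      ∀ μ : ProbabilityMeasure H984N.X, Tendsto (fun i => R.law (δ i)) atTop (𝓝 μ) →
      (∀ z ∈ A, ∀ r : ℝ, 0 < r → r ≤ r0 →
        c * r ^ ((1:ℝ) / 4) ≤ (μ : Measure H984N.X).real (Hit tr z r)) ∧
      (∀ z ∈ A, ∀ w ∈ A, ∀ r : ℝ, 0 < r → r ≤ r0 →
        (μ : Measure H984N.X).real (Hit tr z r ∩ Hit tr w r) ≤
          C * r ^ (2 * (1/4) : ℝ) * (max (dist z w) r) ^ (-(1/4) : ℝ)) := by
  obtain ⟨C, hC, hA⟩ := H985T.st_A
  obtain ⟨c1, r1, hc1, hr1, h1⟩ := one_lim (H443B.toE R) hAc hAD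
  obtain ⟨C2, r2, hC2, hr2, h2⟩ := two_lim hC hA (H443B.toE R) (H443B.isOpen_D R) hAc hAD
  refine ⟨c1, C2, min r1 r2, hc1, hC2, lt_min hr1 hr2, ?_⟩
  intro δ hδ hlim μ hμ
  have hμ' := H443B.limit_trace R hδ hlim hμ
  constructor
  · intro z hz r hr hr0
    have h := h1 δ hδ hlim _ hμ' z hz r hr (hr0.trans (min_le_left _ _))
    rwa [map_real μ (hit_meas0 z r)] at h
  · intro z hz w hw r hr hr0
    have h := h2 δ hδ hlim _ hμ' z hz w hw r hr (hr0.trans (min_le_right _ _))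
    rwa [map_real μ ((hit_meas0 z r).inter (hit_meas0 w r))] at h

theorem energy_ne_zero {S : Set ℂ} (hS : IsCompact S) {ν : Measure ℂ} [IsProbabilityMeasure ν]
    (hν : ν Sᶜ = 0) {β : ℝ} (hβ : 0 < β) : energy β ν ≠ 0 := by
  obtain ⟨M, hM⟩ := Metric.isBounded_iff.mp hS.isBounded
  have hM1 : 0 < max M 1 := by positivity
  have hae : ∀ᵐ x ∂ν, x ∈ S := by
    rw [ae_iff]
    exact hν
  have h1 : (ENNReal.ofReal (max M 1)) ^ (-β) ≤ energy β ν := by
    unfold energy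
    calc (ENNReal.ofReal (max M 1)) ^ (-β)
        = ∫⁻ _, ∫⁻ _, (ENNReal.ofReal (max M 1)) ^ (-β) ∂ν ∂ν := by
          simp only [lintegral_const, measure_univ, mul_one]
      _ ≤ _ := by
          refine lintegral_mono_ae ?_
          filter_upwards [hae] with x hx
          refine lintegral_mono_ae ?_
          filter_upwards [hae] with y hy
          rw [ENNReal.rpow_neg, ENNReal.rpow_neg]
          apply ENNReal.inv_le_inv.mpr
          apply ENNReal.rpow_le_rpow _ hβ.le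
          rw [edist_dist]
          exact ENNReal.ofReal_le_ofReal ((hM hx hy).trans (le_max_left _ _))
  intro h0
  rw [h0, nonpos_iff_eq_zero, ENNReal.rpow_eq_zero_iff] at h1
  rcases h1 with h | h
  · have := h.1
    rw [ENNReal.ofReal_eq_zero] at this
    linarith
  · exact absurd h.1 ENNReal.ofReal_ne_top

/-- Capacity lower bound for the probability to meet a compact set. -/
theorem cap (R : H984N.Rect) {A : Set ℂ} (hAc : IsCompact A) (hAD : A ⊆ R.D) :
    ∃ c : ℝ, 0 < c ∧ ∀ δ : ℕ → ℝ, (∀ i, 0 < δ i) → Tendsto δ atTop (𝓝 0) →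
      ∀ μ : ProbabilityMeasure H984N.X, Tendsto (fun i => R.law (δ i)) atTop (𝓝 μ) →
      ∀ S : Set ℂ, IsCompact S → S ⊆ A → ∀ ν : Measure ℂ, IsProbabilityMeasure ν → ν Sᶜ = 0 →
        ENNReal.ofReal c / energy (1/4) ν ≤
          (μ : Measure H984N.X) {p | ∃ s : unitInterval, p.1 s ∈ S} := by
  obtain ⟨c, C, r0, hc, hC, hr0, h⟩ := X_bounds R hAc hAD
  refine ⟨c ^ 2 / (8 * (C * 3 ^ (1/4 : ℝ))), by positivity, ?_⟩
  intro δ hδ hlim μ hμ S hS hSA ν hν hν0
  obtain ⟨h1, h2⟩ := h δ hδ hlim μ hμ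
  by_cases htop : energy (1/4) ν = ⊤
  · rw [htop, ENNReal.div_top]
    exact zero_le
  have hne := energy_ne_zero hS hν0 (show (0:ℝ) < 1/4 by norm_num)
  have hE0 : 0 < (energy (1/4) ν).toReal := ENNReal.toReal_pos hne htop
  have key := hit_prob (μ := (μ : Measure H984N.X)) tr tr_compact hit_meas hS (α := 1/4) hc hC hr0
    (I := 3 ^ (1/4 : ℝ) * (energy (1/4) ν).toReal) (by positivity)
    (fun z hz r hr hr1 => h1 z (hSA hz) r hr hr1)
    (fun z hz w hw r hr hr1 => h2 z (hSA hz) w (hSA hw) r hr hr1)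
    (fun r hr _ => by
      obtain ⟨T, w, hT, hw, hw1, hb⟩ := disc hS hν0 hr
      exact ⟨T, w, hT, hw, hw1, hb (1/4) (by norm_num) htop⟩)
  have e : ENNReal.ofReal (c ^ 2 / (8 * (C * 3 ^ (1/4 : ℝ)))) / energy (1/4) ν =
      ENNReal.ofReal (c ^ 2 / (8 * (C * (3 ^ (1/4 : ℝ) * (energy (1/4) ν).toReal)))) := by
    conv_lhs => rw [← ENNReal.ofReal_toReal htop]
    rw [← ENNReal.ofReal_div_of_pos hE0]
    congr 1
    field_simp
  rw [e]
  refine key.trans (le_of_eq ?_)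
  congr 1
  ext p
  constructor
  · rintro ⟨x, ⟨s, rfl⟩, hx⟩
    exact ⟨s, hx⟩
  · rintro ⟨s, hs⟩
    exact ⟨p.1 s, ⟨s, rfl⟩, hs⟩

/-- Positive probability of large dimension. -/
theorem dim_pos (R : H984N.Rect) {δ : ℕ → ℝ} (hδ : ∀ i, 0 < δ i) (hlim : Tendsto δ atTop (𝓝 0))
    {μ : ProbabilityMeasure H984N.X} (hμ : Tendsto (fun i => R.law (δ i)) atTop (𝓝 μ))
    {S : Set ℂ} (hS : IsCompact S) (hSD : S ⊆ R.D) {t : ℝ} (ht : 0 < t)
    (h : ENNReal.ofReal (t + 1/4) < dimH S) :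
    0 < (μ : Measure H984N.X) {p | ENNReal.ofReal t ≤ dimH (tr p ∩ S)} := by
  obtain ⟨c, C, r0, hc, hC, hr0, hb⟩ := X_bounds R hS hSD
  obtain ⟨h1, h2⟩ := hb δ hδ hlim μ hμ
  obtain ⟨s, hs0, hs1, hs2⟩ := ENNReal.lt_iff_exists_real_btwn.mp h
  have hts : t + 1/4 < s := (ENNReal.ofReal_lt_ofReal_iff_of_nonneg (by linarith)).mp hs1
  obtain ⟨ν, hν, hν0, C3, hC3, hfr⟩ := frostman_complex hS hs0 hs2
  have e1 := energy_frostman hC3 (β := 1/4) (by norm_num) (by linarith) hfr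
  have e2 := energy_frostman hC3 (β := 1/4 + t) (by linarith) (by linarith) hfr
  have hI : 0 < 3 ^ (1/4 : ℝ) * (energy (1/4) ν).toReal := by
    have := ENNReal.toReal_pos (energy_ne_zero hS hν0 (show (0:ℝ) < 1/4 by norm_num)) e1
    positivity
  have hJ : 0 < 3 ^ (1/4 + t : ℝ) * (energy (1/4 + t) ν).toReal := by
    have := ENNReal.toReal_pos (energy_ne_zero hS hν0 (show (0:ℝ) < 1/4 + t by linarith)) e2
    positivity
  have key := dim_prob (μ := (μ : Measure H984N.X)) tr tr_compact hit_meas hS (α := 1/4) ht hc hC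
    hr0 hI hJ (fun z hz r hr hr1 => h1 z hz r hr hr1)
    (fun z hz w hw r hr hr1 => h2 z hz w hw r hr hr1)
    (fun r hr _ => by
      obtain ⟨T, w, hT, hw, hw1, hb⟩ := disc hS hν0 hr
      exact ⟨T, w, hT, hw, hw1, hb (1/4) (by norm_num) e1, hb (1/4 + t) (by linarith) e2⟩)
  refine lt_of_lt_of_le ?_ key
  rw [ENNReal.ofReal_pos]
  positivity

/-- Essential supremum of the dimension of the trace in a fixed set. -/
theorem ess_trace (R : H984N.Rect) {δ : ℕ → ℝ} (hδ : ∀ i, 0 < δ i) (hlim : Tendsto δ atTop (𝓝 0))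
    {μ : ProbabilityMeasure H984N.X} (hμ : Tendsto (fun i => R.law (δ i)) atTop (𝓝 μ))
    {S : Set ℂ} (hS : IsSigmaCompact S) (hSD : S ⊆ R.D) :
    essSup (fun p : H984N.X => dimH (tr p ∩ S)) (μ : Measure H984N.X) = dimH S - 1 / 4 := by
  have h3 := H443B.fixed_trace (H443B.toE R) hδ hlim (H443B.limit_trace R hδ hlim hμ)
    (H443B.isOpen_D R) hSD
  rw [ProbabilityMeasure.toMeasure_map] at h3
  have h4 := ae_of_ae_map H443B.rgX_cont.measurable.aemeasurable h3
  apply le_antisymm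
  · refine essSup_le_of_ae_le _ ?_
    filter_upwards [h4] with p hp
    exact hp.1
  · by_contra hcon
    rw [not_le] at hcon
    obtain ⟨t, ht0, ht1, ht2⟩ := ENNReal.lt_iff_exists_real_btwn.mp hcon
    have htp : 0 < t := by
      by_contra h0
      have h5 : t = 0 := le_antisymm (not_lt.mp h0) ht0
      rw [h5, ENNReal.ofReal_zero] at ht1
      exact absurd ht1 not_lt_zero
    have ht3 : ENNReal.ofReal (t + 1/4) < dimH S := by
      rw [ENNReal.ofReal_add ht0 (by norm_num)]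
      have e14 : (1/4 : ℝ≥0∞) = ENNReal.ofReal (1/4) := by
        rw [ENNReal.ofReal_div_of_pos (by norm_num), ENNReal.ofReal_one,
          show ENNReal.ofReal 4 = 4 by simp]
      rw [← e14]
      exact lt_tsub_iff_right.mp ht2
    obtain ⟨Kn, hKc, hKS⟩ := hS
    rw [← hKS, dimH_iUnion] at ht3
    obtain ⟨n, hn⟩ := lt_iSup_iff.mp ht3
    have hsub : Kn n ⊆ S := by
      rw [← hKS]
      exact Set.subset_iUnion Kn n
    have h5 := dim_pos R hδ hlim hμ (hKc n) (hsub.trans hSD) htp hn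
    have h6 := ae_lt_of_essSup_lt ht1
    rw [ae_iff] at h6
    have h7 : (μ : Measure H984N.X) {p | ENNReal.ofReal t ≤ dimH (tr p ∩ Kn n)} ≤ 0 := by
      rw [← h6]
      apply measure_mono
      intro p hp
      simp only [Set.mem_ofPred_eq, not_lt] at hp ⊢
      exact hp.trans (dimH_mono (Set.inter_subset_inter_right _ hsub))
    exact absurd h5 (not_lt.mpr h7)

end Pool.Agent.TH966.HD
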